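import Pool.Agent.W7h56.WE.Jac

/-!
# Two by two determinants; the mean curvature vector
-/

set_option autoImplicit false

namespace Pool.Agent.W7h56.WE

open scoped ContDiff RealInnerProductSpace ENNReal Topology
open MeasureTheory Set Metric Pool.Agent.Y503.RB Filter

/-- The mixed term of two positive semidefinite forms is nonnegative. -/
theorem mixed_nonneg {a b d p q r : ℝ} (ha : 0 ≤ a) (hd : 0 ≤ d) (h1 : b ^ 2 ≤ a * d)
    (hp : 0 ≤ p) (hr : 0 ≤ r) (h2 : q ^ 2 ≤ p * r) : 0 ≤ a * r + d * p - 2 * b * q := by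
  have h3 : (2 * b * q) ^ 2 ≤ (a * r + d * p) ^ 2 := by
    have h4 : b ^ 2 * q ^ 2 ≤ (a * d) * (p * r) :=
      mul_le_mul h1 h2 (sq_nonneg q) (mul_nonneg ha hd)
    nlinarith [sq_nonneg (a * r - d * p)]
  have h5 : 0 ≤ a * r + d * p := by positivity
  have h6 := abs_le_of_sq_le_sq h3 h5
  have := (abs_le.mp (by simpa using h6 : |2 * b * q| ≤ a * r + d * p)).2
  linarith

/-- Adding a positive semidefinite form increases the determinant of a positive definite form. -/
theorem det_add {a b d p q r : ℝ} (ha : 0 < a) (h1 : 0 < a * d - b ^ 2)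
    (hp : 0 ≤ p) (hr : 0 ≤ r) (h2 : q ^ 2 ≤ p * r) :
    0 < a + p ∧ a * d - b ^ 2 ≤ (a + p) * (d + r) - (b + q) ^ 2 := by
  have hd : 0 < d := by
    by_contra hc
    push Not at hc
    nlinarith [sq_nonneg b]
  refine ⟨by linarith, ?_⟩
  have := mixed_nonneg (b := b) (q := q) ha.le hd.le (by linarith) hp hr h2
  nlinarith

/-- The determinant of a form is at most the square of half of its trace. -/
theorem det_le_trace {a b d e f g : ℝ} (he : 0 < e) (h1 : 0 < e * g - f ^ 2) :
    4 * (a * d - b ^ 2) * (e * g - f ^ 2) ≤ (g * a - 2 * f * b + e * d) ^ 2 := by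
  have h2 : e ^ 2 * ((g * a - 2 * f * b + e * d) ^ 2 - 4 * (a * d - b ^ 2) * (e * g - f ^ 2)) =
      ((e * g - f ^ 2) * a - (e ^ 2 * d - 2 * e * f * b + f ^ 2 * a)) ^ 2 +
        4 * (e * g - f ^ 2) * (e * b - f * a) ^ 2 := by ring
  have h3 : 0 ≤ e ^ 2 * ((g * a - 2 * f * b + e * d) ^ 2 -
      4 * (a * d - b ^ 2) * (e * g - f ^ 2)) := by
    rw [h2]
    have : 0 ≤ 4 * (e * g - f ^ 2) * (e * b - f * a) ^ 2 := by positivity
    nlinarith [sq_nonneg ((e * g - f ^ 2) * a - (e ^ 2 * d - 2 * e * f * b + f ^ 2 * a))]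
  have h4 : 0 < e ^ 2 := by positivity
  have := nonneg_of_mul_nonneg_right h3 h4
  linarith

/-- The trace of a positive definite form is positive. -/
theorem trace_pos {a b d e f g : ℝ} (ha : 0 < a) (hA : 0 < a * d - b ^ 2) (he : 0 < e)
    (h1 : 0 < e * g - f ^ 2) : 0 < g * a - 2 * f * b + e * d := by
  have hd : 0 < d := by
    by_contra hc
    push Not at hc
    nlinarith [sq_nonneg b]
  have hg : 0 < g := by
    by_contra hc
    push Not at hc
    nlinarith [sq_nonneg f]
  have h2 := mixed_nonneg ha.le hd.le (b := b) (by linarith) he.le hg.le (q := f) (by linarith)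
  have h3 := det_le_trace (a := a) (b := b) (d := d) he h1
  have h4 : 0 < 4 * (a * d - b ^ 2) * (e * g - f ^ 2) := by positivity
  have h5 : 0 ≤ g * a - 2 * f * b + e * d := by linarith
  rcases h5.lt_or_eq with h | h
  · exact h
  · rw [← h] at h3
    linarith

theorem fff_pos {φ : ℂ → E4} {z : ℂ} (h : Function.Injective (fderiv ℝ φ z)) :
    0 < fff φ 1 1 z := by
  have h1 : d1 φ 1 z ≠ 0 := by
    intro h0
    have := h (a₁ := 1) (a₂ := 0) (by rw [map_zero]; exact h0)
    exact one_ne_zero this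
  exact real_inner_self_pos.mpr h1

/-- Comparison of the determinants of `XX` and of the second fundamental form. -/
theorem XDet_le {φ : ℂ → E4} {ε : ℝ} {w : E4} {z : ℂ} (hε : 0 < ε) (hin : ‖φ z‖ < 1)
    (hX : 0 < XX φ ε w 1 1 z) (hD : 0 < XDet φ ε w z) :
    0 < sff φ w 1 1 z ∧ XDet φ ε w z ≤ sffDet φ w z := by
  have hs : 0 < 1 - ‖φ z‖ ^ 2 := by nlinarith [norm_nonneg (φ z)]
  have he : 0 < ee ε (φ z) := by unfold ee; positivity
  have hk : 0 < kk ε (φ z) := by unfold kk; positivity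
  obtain ⟨a, ha⟩ : ∃ a, a = ⟪φ z, d1 φ 1 z⟫ := ⟨_, rfl⟩
  obtain ⟨b, hb⟩ : ∃ b, b = ⟪φ z, d1 φ Complex.I z⟫ := ⟨_, rfl⟩
  have g11 : 0 ≤ fff φ 1 1 z := real_inner_self_nonneg
  have g22 : 0 ≤ fff φ Complex.I Complex.I z := real_inner_self_nonneg
  have g12 : fff φ 1 Complex.I z ^ 2 ≤ fff φ 1 1 z * fff φ Complex.I Complex.I z := by
    unfold fff
    have := real_inner_mul_inner_self_le (d1 φ 1 z) (d1 φ Complex.I z)
    rw [sq]
    linarith
  have key := det_add (a := XX φ ε w 1 1 z) (b := XX φ ε w 1 Complex.I z)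
    (d := XX φ ε w Complex.I Complex.I z)
    (p := ee ε (φ z) * fff φ 1 1 z + kk ε (φ z) * (a * a))
    (q := ee ε (φ z) * fff φ 1 Complex.I z + kk ε (φ z) * (a * b))
    (r := ee ε (φ z) * fff φ Complex.I Complex.I z + kk ε (φ z) * (b * b)) hX hD
    (by have := mul_self_nonneg a; positivity) (by have := mul_self_nonneg b; positivity) ?_
  · have e11 : XX φ ε w 1 1 z + (ee ε (φ z) * fff φ 1 1 z + kk ε (φ z) * (a * a)) =
        sff φ w 1 1 z := by
      unfold XX
      rw [← ha]
      ring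
    have e12 : XX φ ε w 1 Complex.I z + (ee ε (φ z) * fff φ 1 Complex.I z + kk ε (φ z) * (a * b)) =
        sff φ w 1 Complex.I z := by
      unfold XX
      rw [← ha, ← hb]
      ring
    have e22 : XX φ ε w Complex.I Complex.I z +
        (ee ε (φ z) * fff φ Complex.I Complex.I z + kk ε (φ z) * (b * b)) =
        sff φ w Complex.I Complex.I z := by
      unfold XX
      rw [← hb]
      ring
    rw [e11, e12, e22] at key
    exact key
  · have h1 := mixed_nonneg (a := fff φ 1 1 z) (b := fff φ 1 Complex.I z)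
      (d := fff φ Complex.I Complex.I z) (p := a * a) (q := a * b) (r := b * b) g11 g22 g12
      (mul_self_nonneg a) (mul_self_nonneg b) (by nlinarith)
    have h2 : (ee ε (φ z) * fff φ 1 1 z + kk ε (φ z) * (a * a)) *
        (ee ε (φ z) * fff φ Complex.I Complex.I z + kk ε (φ z) * (b * b)) -
        (ee ε (φ z) * fff φ 1 Complex.I z + kk ε (φ z) * (a * b)) ^ 2 =
        ee ε (φ z) ^ 2 * (fff φ 1 1 z * fff φ Complex.I Complex.I z - fff φ 1 Complex.I z ^ 2) +
        ee ε (φ z) * kk ε (φ z) * (fff φ 1 1 z * (b * b) + fff φ Complex.I Complex.I z * (a * a) -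
          2 * fff φ 1 Complex.I z * (a * b)) := by ring
    have h3 : 0 ≤ ee ε (φ z) ^ 2 *
        (fff φ 1 1 z * fff φ Complex.I Complex.I z - fff φ 1 Complex.I z ^ 2) :=
      mul_nonneg (by positivity) (by linarith)
    have h4 : 0 ≤ ee ε (φ z) * kk ε (φ z) * (fff φ 1 1 z * (b * b) +
        fff φ Complex.I Complex.I z * (a * a) - 2 * fff φ 1 Complex.I z * (a * b)) :=
      mul_nonneg (by positivity) h1
    linarith

/-- Inner product of the mean curvature vector with a normal vector. -/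
theorem meanCurv_inner {φ : ℂ → E4} {w : E4} {z : ℂ} (hw : ∀ v : ℂ, ⟪w, d1 φ v z⟫ = 0) :
    ⟪meanCurv φ z, w⟫ = (2 * fffDet φ z)⁻¹ *
      (fff φ Complex.I Complex.I z * sff φ w 1 1 z - 2 * fff φ 1 Complex.I z * sff φ w 1 Complex.I z +
        fff φ 1 1 z * sff φ w Complex.I Complex.I z) := by
  have hw' : w ∈ (Submodule.span ℝ {d1 φ 1 z, d1 φ Complex.I z})ᗮ := by
    rw [Submodule.mem_orthogonal']
    intro y hy
    obtain ⟨a, b, rfl⟩ := Submodule.mem_span_pair.mp hy
    rw [inner_add_right, inner_smul_right, inner_smul_right, hw, hw]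
    simp
  unfold meanCurv
  rw [inner_smul_left, Submodule.inner_starProjection_left_eq_right,
    Submodule.starProjection_eq_self_iff.mpr hw', real_inner_comm]
  unfold trD2 sff
  simp only [inner_add_right, inner_sub_right, inner_smul_right, conj_trivial]

/-- The mean curvature vector is normal. -/
theorem meanCurv_normal (φ : ℂ → E4) (z v : ℂ) : ⟪meanCurv φ z, d1 φ v z⟫ = 0 := by
  have h1 : meanCurv φ z ∈ (Submodule.span ℝ {d1 φ 1 z, d1 φ Complex.I z})ᗮ := by
    unfold meanCurv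
    exact Submodule.smul_mem _ _ (Submodule.starProjection_apply_mem _ _)
  rw [Submodule.mem_orthogonal'] at h1
  refine h1 _ ?_
  have hv : v = (v.re : ℂ) + (v.im : ℂ) * Complex.I := (Complex.re_add_im v).symm
  rw [hv, d1_lin]
  exact Submodule.add_mem _ (Submodule.smul_mem _ _ (Submodule.subset_span (by simp)))
    (Submodule.smul_mem _ _ (Submodule.subset_span (by simp)))

/-- The determinant of a positive definite second fundamental form is at most the square of the
mean curvature. -/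
theorem sffDet_le {φ : ℂ → E4} {w : E4} {z : ℂ} (hi : Function.Injective (fderiv ℝ φ z))
    (hw : ∀ v : ℂ, ⟪w, d1 φ v z⟫ = 0) (h1 : 0 < sff φ w 1 1 z) (h2 : 0 < sffDet φ w z) :
    0 < ⟪meanCurv φ z, w⟫ ∧ sffDet φ w z ≤ ⟪meanCurv φ z, w⟫ ^ 2 * fffDet φ z := by
  have hg := Pool.Agent.Y421.RB.fffDet_pos hi
  have hg1 := fff_pos hi
  have h3 := trace_pos h1 h2 hg1 hg
  have h4 := det_le_trace (a := sff φ w 1 1 z) (b := sff φ w 1 Complex.I z)
    (d := sff φ w Complex.I Complex.I z) hg1 hg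
  rw [meanCurv_inner hw]
  refine ⟨by
    have : (0 : ℝ) < (2 * fffDet φ z)⁻¹ := by positivity
    exact mul_pos this h3, ?_⟩
  have h5 : fff φ 1 1 z * fff φ Complex.I Complex.I z - fff φ 1 Complex.I z ^ 2 = fffDet φ z := rfl
  have h6 : sff φ w 1 1 z * sff φ w Complex.I Complex.I z - sff φ w 1 Complex.I z ^ 2 =
      sffDet φ w z := rfl
  rw [h5, h6] at h4
  rw [mul_pow, mul_comm, ← mul_assoc, inv_pow, mul_comm (fffDet φ z), inv_mul_eq_div,
    div_mul_eq_mul_div, le_div_iff₀ (by positivity)]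
  nlinarith

end Pool.Agent.W7h56.WE
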