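import Pool.Agent.W7h56.WE.Meas

/-!
# One chart
-/

set_option autoImplicit false

namespace Pool.Agent.W7h56.WE

open scoped ContDiff RealInnerProductSpace ENNReal Topology
open MeasureTheory Set Metric Pool.Agent.Y503.RB Filter

/-- The second fundamental form in the direction `w` is positive definite. -/
def PosII (φ : ℂ → E4) (w : E4) (z : ℂ) : Prop := 0 < sff φ w 1 1 z ∧ 0 < sffDet φ w z

open Classical in
/-- The determinant of the second fundamental form in the direction `w` where it is positive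
definite, zero elsewhere. -/
noncomputable def cdet (φ : ℂ → E4) (w : E4) (z : ℂ) : ℝ :=
  if PosII φ w z then sffDet φ w z else 0

/-- Density (with respect to the parameter `z`) of the total curvature: the integral of
`det II_w / √det I` over the unit disc of the normal plane, where `II_w` is positive definite. (All
isometries `L` of the plane with the normal plane in the supremum give the same value.) -/
noncomputable def cdens (φ : ℂ → E4) (z : ℂ) : ℝ≥0∞ :=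
  ⨆ (L : ℂ →ₗᵢ[ℝ] E4) (_ : ∀ w v : ℂ, ⟪L w, d1 φ v z⟫ = 0),
    ∫⁻ w in ball (0 : ℂ) 1, ENNReal.ofReal (cdet φ (L w) z / √(fffDet φ z))

theorem sff_smul (φ : ℂ → E4) (s : ℝ) (w : E4) (u v z : ℂ) :
    sff φ (s • w) u v z = s * sff φ w u v z := by
  unfold sff
  rw [inner_smul_left]
  rfl

theorem cdet_smul (φ : ℂ → E4) {s : ℝ} (hs : 0 < s) (w : E4) (z : ℂ) :
    cdet φ (s • w) z = s ^ 2 * cdet φ w z := by
  have h1 : sffDet φ (s • w) z = s ^ 2 * sffDet φ w z := by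
    unfold sffDet
    rw [sff_smul, sff_smul, sff_smul]
    ring
  have h2 : PosII φ (s • w) z ↔ PosII φ w z := by
    unfold PosII
    rw [h1, sff_smul]
    rw [mul_pos_iff_of_pos_left hs, mul_pos_iff_of_pos_left (by positivity)]
  unfold cdet
  by_cases h : PosII φ w z
  · rw [if_pos h, if_pos (h2.mpr h), h1]
  · rw [if_neg h, if_neg (fun h' => h (h2.mp h')), mul_zero]

theorem cdet_nonneg (φ : ℂ → E4) (w : E4) (z : ℂ) : 0 ≤ cdet φ w z := by
  unfold cdet
  split_ifs with h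
  · exact h.2.le
  · exact le_rfl

/-- The isometry onto the normal plane given by an orthonormal pair. -/
theorem exists_iso {n₁ n₂ : E4} (h1 : ‖n₁‖ = 1) (h2 : ‖n₂‖ = 1) (h3 : ⟪n₁, n₂⟫ = 0) :
    ∃ L : ℂ →ₗᵢ[ℝ] E4, ∀ w : ℂ, L w = w.re • n₁ + w.im • n₂ := by
  let f : ℂ →ₗ[ℝ] E4 :=
    { toFun := fun w => w.re • n₁ + w.im • n₂
      map_add' := by
        intro a b
        simp only [Complex.add_re, Complex.add_im, add_smul]
        abel
      map_smul' := by
        intro r a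
        simp only [Complex.real_smul, Complex.re_ofReal_mul, Complex.im_ofReal_mul, smul_add,
          smul_smul, RingHom.id_apply] }
  refine ⟨⟨f, fun w => ?_⟩, fun w => rfl⟩
  have h4 : ‖f w‖ ^ 2 = ‖w‖ ^ 2 := by
    show ‖w.re • n₁ + w.im • n₂‖ ^ 2 = _
    rw [norm_add_sq_real, inner_smul_left, inner_smul_right, h3, norm_smul, norm_smul, h1, h2,
      ← Complex.normSq_eq_norm_sq, Complex.normSq_apply, Real.norm_eq_abs, Real.norm_eq_abs,
      mul_one, mul_one, sq_abs, sq_abs]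
    simp
    ring
  have h5 := norm_nonneg (f w)
  have h6 := norm_nonneg w
  nlinarith [sq_nonneg (‖f w‖ - ‖w‖), sq_nonneg (‖f w‖ + ‖w‖)]

/-- The normal vector with coordinate `w` in the frame. -/
noncomputable def fv (N₁ N₂ : ℂ → E4) (q : ℂ × ℂ) : E4 := q.2.re • N₁ q.1 + q.2.im • N₂ q.1

theorem nv_eq (N₁ N₂ : ℂ → E4) (x : E4) : nv N₁ N₂ x = fv N₁ N₂ (co x) := by
  rw [co_apply]
  rfl

variable {φ N₁ N₂ : ℂ → E4} {U : Set ℂ}

theorem fv_norm (hF : Frame φ N₁ N₂ U) {q : ℂ × ℂ} (hq : q.1 ∈ U) : ‖fv N₁ N₂ q‖ = ‖q.2‖ := by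
  obtain ⟨L, hL⟩ := exists_iso (hF.unit₁ _ hq) (hF.unit₂ _ hq) (hF.orth _ hq)
  unfold fv
  rw [← hL, L.norm_map]

theorem fv_normal (hF : Frame φ N₁ N₂ U) {q : ℂ × ℂ} (hq : q.1 ∈ U) (v : ℂ) :
    ⟪fv N₁ N₂ q, d1 φ v q.1⟫ = 0 := by
  unfold fv
  rw [inner_add_left, inner_smul_left, inner_smul_left, hF.norm₁ _ hq, hF.norm₂ _ hq]
  simp

theorem c_fst {E : Type} [TopologicalSpace E] {f : ℂ → E} (hf : ContinuousOn f U) :
    ContinuousOn (fun q : ℂ × ℂ => f q.1) (U ×ˢ univ) :=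
  hf.comp continuous_fst.continuousOn fun _ hq => hq.1

theorem c_fv (hF : Frame φ N₁ N₂ U) : ContinuousOn (fv N₁ N₂) (U ×ˢ univ) := by
  unfold fv
  exact ((Complex.continuous_re.comp continuous_snd).continuousOn.smul
    (c_fst hF.smooth₁.continuousOn)).add
      ((Complex.continuous_im.comp continuous_snd).continuousOn.smul
        (c_fst hF.smooth₂.continuousOn))

theorem c_sff (hP : Patch φ U) (hF : Frame φ N₁ N₂ U) (u v : ℂ) :
    ContinuousOn (fun q : ℂ × ℂ => sff φ (fv N₁ N₂ q) u v q.1) (U ×ˢ univ) := by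
  unfold sff
  exact (c_fv hF).inner (c_fst (Pool.Agent.Y349.RB.c_d2 hP u v))

theorem c_sffDet (hP : Patch φ U) (hF : Frame φ N₁ N₂ U) :
    ContinuousOn (fun q : ℂ × ℂ => sffDet φ (fv N₁ N₂ q) q.1) (U ×ˢ univ) := by
  unfold sffDet
  exact ((c_sff hP hF 1 1).mul (c_sff hP hF Complex.I Complex.I)).sub
    ((c_sff hP hF 1 Complex.I).pow 2)

theorem c_ee (hP : Patch φ U) (ε : ℝ) : ContinuousOn (fun z => ee ε (φ z)) U := by
  unfold ee
  refine continuousOn_const.div ((continuousOn_const.sub (hP.smooth.continuousOn.norm.pow 2)).pow 2)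
    fun z hz => ?_
  have h1 := hP.inside z hz
  have : 0 < 1 - ‖φ z‖ ^ 2 := by nlinarith [norm_nonneg (φ z)]
  positivity

theorem c_kk (hP : Patch φ U) (ε : ℝ) : ContinuousOn (fun z => kk ε (φ z)) U := by
  unfold kk
  refine continuousOn_const.div ((continuousOn_const.sub (hP.smooth.continuousOn.norm.pow 2)).pow 3)
    fun z hz => ?_
  have h1 := hP.inside z hz
  have : 0 < 1 - ‖φ z‖ ^ 2 := by nlinarith [norm_nonneg (φ z)]
  positivity

theorem c_XX (hP : Patch φ U) (hF : Frame φ N₁ N₂ U) (ε : ℝ) (u v : ℂ) :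
    ContinuousOn (fun q : ℂ × ℂ => XX φ ε (fv N₁ N₂ q) u v q.1) (U ×ˢ univ) := by
  unfold XX fff
  have h0 := hP.smooth.continuousOn
  have h1 := fun v => Pool.Agent.Y349.RB.c_d1 hP v
  exact ((c_sff hP hF u v).sub ((c_fst (c_ee hP ε)).mul (c_fst ((h1 u).inner (h1 v))))).sub
    ((c_fst (c_kk hP ε)).mul ((c_fst (h0.inner (h1 u))).mul (c_fst (h0.inner (h1 v)))))

theorem c_XDet (hP : Patch φ U) (hF : Frame φ N₁ N₂ U) (ε : ℝ) :
    ContinuousOn (fun q : ℂ × ℂ => XDet φ ε (fv N₁ N₂ q) q.1) (U ×ˢ univ) := by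
  unfold XDet
  exact ((c_XX hP hF ε 1 1).mul (c_XX hP hF ε Complex.I Complex.I)).sub
    ((c_XX hP hF ε 1 Complex.I).pow 2)

theorem continuous_co : Continuous (fun x : E4 => (zc x, wc x)) := by
  refine continuous_zc.prodMk ?_
  have : wc = fun x : E4 => ((x 2 : ℝ) : ℂ) + (x 3 : ℝ) * Complex.I := by
    funext x
    apply Complex.ext <;> simp [wc]
  rw [this]
  fun_prop

/-- The region of the local minima of `FF`-type. -/
def reg (φ N₁ N₂ : ℂ → E4) (ε : ℝ) (U : Set ℂ) : Set E4 :=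
  {x | zc x ∈ U ∧ 0 < XX φ ε (nv N₁ N₂ x) 1 1 (zc x) ∧ 0 < XDet φ ε (nv N₁ N₂ x) (zc x) ∧
    ‖emap φ N₁ N₂ ε x‖ < 1}

theorem isOpen_reg (hP : Patch φ U) (hF : Frame φ N₁ N₂ U) (ε : ℝ) :
    IsOpen (reg φ N₁ N₂ ε U) := by
  have hU : IsOpen (U ×ˢ (univ : Set ℂ)) := hP.isOpen.prod isOpen_univ
  have h1 := (c_XX hP hF ε 1 1).isOpen_inter_preimage hU isOpen_Ioi (t := Ioi 0)
  have h2 := (c_XDet hP hF ε).isOpen_inter_preimage hU isOpen_Ioi (t := Ioi 0)
  have h3 : ContinuousOn (fun q : ℂ × ℂ => ‖ee ε (φ q.1) • φ q.1 + fv N₁ N₂ q‖) (U ×ˢ univ) :=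
    (((c_fst (c_ee hP ε)).smul (c_fst hP.smooth.continuousOn)).add (c_fv hF)).norm
  have h4 := h3.isOpen_inter_preimage hU (isOpen_Iio (a := (1 : ℝ)))
  have h5 := ((h1.inter h2).inter h4).preimage continuous_co
  convert h5 using 1
  ext x
  have e1 : nv N₁ N₂ x = fv N₁ N₂ (zc x, wc x) := rfl
  have e2 : emap φ N₁ N₂ ε x = ee ε (φ (zc x)) • φ (zc x) + fv N₁ N₂ (zc x, wc x) := rfl
  simp only [reg, mem_ofPred_eq, mem_inter_iff, mem_preimage, mem_prod, mem_univ, and_true, mem_Ioi,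
    mem_Iio, e1, e2]
  tauto

end Pool.Agent.W7h56.WE
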