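import Pool.Agent.W7h56.WE.Chart

/-!
# The measure of the bad linear functions: one chart
-/

set_option autoImplicit false

namespace Pool.Agent.W7h56.WE

open scoped ContDiff RealInnerProductSpace ENNReal Topology
open MeasureTheory Set Metric Pool.Agent.Y503.RB Filter

variable {φ N₁ N₂ : ℂ → E4} {U : Set ℂ}

/-- The density in the coordinates. -/
noncomputable def gden (φ N₁ N₂ : ℂ → E4) (q : ℂ × ℂ) : ℝ≥0∞ :=
  ENNReal.ofReal (cdet φ (fv N₁ N₂ q) q.1 / √(fffDet φ q.1))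

/-- The set of the parameters. -/
def sset (φ : ℂ → E4) (ε : ℝ) (B : Set ℂ) : Set (ℂ × ℂ) :=
  {q | q.1 ∈ B ∧ ‖q.2‖ < 1 + ee ε (φ q.1)}

theorem measurable_sset (hP : Patch φ U) (ε : ℝ) {B : Set ℂ} (hB : MeasurableSet B) (hBU : B ⊆ U) :
    MeasurableSet (sset φ ε B) := by
  have hU : IsOpen (U ×ˢ (univ : Set ℂ)) := hP.isOpen.prod isOpen_univ
  have h1 : ContinuousOn (fun q : ℂ × ℂ => ‖q.2‖ - (1 + ee ε (φ q.1))) (U ×ˢ univ) :=
    (continuous_snd.norm.continuousOn).sub (continuousOn_const.add (c_fst (c_ee hP ε)))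
  have h2 := h1.isOpen_inter_preimage hU (isOpen_Iio (a := (0 : ℝ)))
  have h3 : sset φ ε B = (B ×ˢ univ) ∩ ((U ×ˢ (univ : Set ℂ)) ∩
      (fun q : ℂ × ℂ => ‖q.2‖ - (1 + ee ε (φ q.1))) ⁻¹' Iio 0) := by
    ext q
    simp only [sset, mem_ofPred_eq, mem_inter_iff, mem_prod, mem_univ, and_true, mem_preimage,
      mem_Iio, sub_neg]
    constructor
    · rintro ⟨h, h'⟩
      exact ⟨h, hBU h, h'⟩
    · rintro ⟨h, -, h'⟩
      exact ⟨h, h'⟩
  rw [h3]
  exact (hB.prod MeasurableSet.univ).inter h2.measurableSet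

theorem aemeasurable_gden (hP : Patch φ U) (hF : Frame φ N₁ N₂ U) {S : Set (ℂ × ℂ)}
    (hS : MeasurableSet S) (hSU : S ⊆ U ×ˢ univ) :
    AEMeasurable (S.indicator (gden φ N₁ N₂)) volume := by
  have hU : IsOpen (U ×ˢ (univ : Set ℂ)) := hP.isOpen.prod isOpen_univ
  have h1 := (c_sff hP hF 1 1).isOpen_inter_preimage hU isOpen_Ioi (t := Ioi 0)
  have h2 := (c_sffDet hP hF).isOpen_inter_preimage hU isOpen_Ioi (t := Ioi 0)
  set O : Set (ℂ × ℂ) := ((U ×ˢ univ) ∩ (fun q : ℂ × ℂ => sff φ (fv N₁ N₂ q) 1 1 q.1) ⁻¹' Ioi 0) ∩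
    ((U ×ˢ univ) ∩ (fun q : ℂ × ℂ => sffDet φ (fv N₁ N₂ q) q.1) ⁻¹' Ioi 0) with hO
  have hOm : MeasurableSet O := (h1.inter h2).measurableSet
  have hOU : O ⊆ U ×ˢ univ := fun q hq => hq.1.1
  have hc : ContinuousOn (fun q : ℂ × ℂ => sffDet φ (fv N₁ N₂ q) q.1 / √(fffDet φ q.1))
      (U ×ˢ univ) := by
    refine (c_sffDet hP hF).div (c_fst (Pool.Agent.Y349.RB.c_fffDet hP).sqrt) fun q hq => ?_
    exact (Real.sqrt_pos.2 (Pool.Agent.Y421.RB.fffDet_pos (hP.imm _ hq.1))).ne'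
  have e : S.indicator (gden φ N₁ N₂) = (S ∩ O).indicator
      (fun q : ℂ × ℂ => ENNReal.ofReal (sffDet φ (fv N₁ N₂ q) q.1 / √(fffDet φ q.1))) := by
    funext q
    by_cases hq : q ∈ S
    · rw [indicator_of_mem hq]
      by_cases hq' : PosII φ (fv N₁ N₂ q) q.1
      · rw [indicator_of_mem (by exact ⟨hq, ⟨hSU hq, hq'.1⟩, ⟨hSU hq, hq'.2⟩⟩)]
        simp [gden, cdet, hq']
      · rw [indicator_of_notMem (by exact fun h => hq' ⟨h.2.1.2, h.2.2.2⟩)]
        simp [gden, cdet, hq']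
    · rw [indicator_of_notMem hq, indicator_of_notMem (fun h => hq h.1)]
  rw [e, aemeasurable_indicator_iff (hS.inter hOm)]
  exact ((hc.mono (inter_subset_right.trans hOU)).aemeasurable (hS.inter hOm)).ennreal_ofReal

/-- Integration over the normal directions. -/
theorem int_normal (hP : Patch φ U) (hF : Frame φ N₁ N₂ U) {ε : ℝ} (hε : 0 < ε) {z : ℂ}
    (hz : z ∈ U) :
    ∫⁻ w in ball (0 : ℂ) (1 + ee ε (φ z)), gden φ N₁ N₂ (z, w) ≤
      ENNReal.ofReal ((1 + ee ε (φ z)) ^ 4) * cdens φ z := by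
  have hin := hP.inside z hz
  have he : 0 < ee ε (φ z) := by
    have : 0 < 1 - ‖φ z‖ ^ 2 := by nlinarith [norm_nonneg (φ z)]
    unfold ee
    positivity
  have hs : 0 < 1 + ee ε (φ z) := by linarith
  have hg := Real.sqrt_pos.2 (Pool.Agent.Y421.RB.fffDet_pos (hP.imm _ hz))
  rw [scale _ hs]
  · gcongr
    obtain ⟨L, hL⟩ := exists_iso (hF.unit₁ _ hz) (hF.unit₂ _ hz) (hF.orth _ hz)
    have h1 : ∀ w v : ℂ, ⟪L w, d1 φ v z⟫ = 0 := by
      intro w v
      rw [hL]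
      exact fv_normal hF (q := (z, w)) hz v
    unfold cdens
    refine le_iSup₂_of_le L h1 (le_of_eq ?_)
    congr 1
    funext w
    unfold gden
    rw [hL]
    rfl
  · intro w
    unfold gden
    have h1 : fv N₁ N₂ (z, (1 + ee ε (φ z)) • w) = (1 + ee ε (φ z)) • fv N₁ N₂ (z, w) := by
      unfold fv
      simp only [Complex.real_smul, Complex.re_ofReal_mul, Complex.im_ofReal_mul, smul_add,
          smul_smul]
    rw [h1]
    simp only
    rw [cdet_smul φ hs, mul_div_assoc, ENNReal.ofReal_mul (by positivity)]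

/-- One chart. -/
theorem chart (hP : Patch φ U) (hF : Frame φ N₁ N₂ U) {ε M : ℝ} (hε : 0 < ε)
    {A : Set ℂ} (hA : MeasurableSet A) (hAU : A ⊆ U)
    (hM : ∀ z ∈ U, ∀ w : E4, (∀ v : ℂ, ⟪w, d1 φ v z⟫ = 0) → ‖ee ε (φ z) • φ z + w‖ < 1 →
      ee ε (φ z) ≤ M) :
    ∃ c : E4 → ℝ≥0∞, Measurable c ∧
      ∫⁻ y, c y ≤ ∫⁻ z in A ∩ {z | z ∈ U ∧ ee ε (φ z) ≤ M},
        ENNReal.ofReal ((1 + ee ε (φ z)) ^ 4) * cdens φ z ∧
      ∀ (y : E4) (s : Finset E4), (∀ x ∈ s, x ∈ reg φ N₁ N₂ ε U ∧ zc x ∈ A ∧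
        emap φ N₁ N₂ ε x = y) → (s.card : ℝ≥0∞) ≤ c y := by
  have hRo := isOpen_reg hP hF ε
  have hsm : ContDiffOn ℝ ∞ (emap φ N₁ N₂ ε) (reg φ N₁ N₂ ε U) := fun x hx =>
    (emap_smooth hP hF hx.1).contDiffWithinAt
  have hdet : ∀ x ∈ reg φ N₁ N₂ ε U, (fderiv ℝ (emap φ N₁ N₂ ε) x).det ≠ 0 := by
    intro x hx h0
    have h1 := emap_det hP hF (ε := ε) hx.1
    rw [h0, abs_zero] at h1
    have h2 := Real.sqrt_pos.2 (Pool.Agent.Y421.RB.fffDet_pos (hP.imm _ hx.1))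
    have h3 : 0 < |XDet φ ε (nv N₁ N₂ x) (zc x)| := abs_pos.mpr hx.2.2.1.ne'
    have := div_pos h3 h2
    linarith
  have hm : MeasurableSet ({x : E4 | x ∈ reg φ N₁ N₂ ε U ∧ zc x ∈ A}) :=
    hRo.measurableSet.inter (continuous_zc.measurable hA)
  obtain ⟨c, hc1, hc2, hc3⟩ := count2 (emap φ N₁ N₂ ε) (reg φ N₁ N₂ ε U) hRo hsm hdet _ hm
    (fun x hx => hx.1)
  refine ⟨c, hc1, hc2.trans ?_, ?_⟩
  · -- the set of the `z`
    have hBo : IsOpen (U ∩ (fun z => ee ε (φ z)) ⁻¹' Ioi M) :=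
      (c_ee hP ε).isOpen_inter_preimage hP.isOpen isOpen_Ioi
    have hBe : A ∩ {z | z ∈ U ∧ ee ε (φ z) ≤ M} =
        A \ (U ∩ (fun z => ee ε (φ z)) ⁻¹' Ioi M) := by
      ext z
      simp only [mem_inter_iff, mem_ofPred_eq, mem_diff, mem_preimage, mem_Ioi, not_and, not_lt]
      constructor
      · rintro ⟨h1, h2, h3⟩
        exact ⟨h1, fun _ => h3⟩
      · rintro ⟨h1, h2⟩
        exact ⟨h1, hAU h1, h2 (hAU h1)⟩
    set B : Set ℂ := A ∩ {z | z ∈ U ∧ ee ε (φ z) ≤ M} with hB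
    have hBm : MeasurableSet B := by
      rw [hBe]
      exact hA.diff hBo.measurableSet
    have hBU : B ⊆ U := fun z hz => hAU hz.1
    have hSm := measurable_sset hP ε hBm hBU
    have hSU : sset φ ε B ⊆ U ×ˢ univ := fun q hq => ⟨hBU hq.1, mem_univ _⟩
    have step1 : ∫⁻ x in {x : E4 | x ∈ reg φ N₁ N₂ ε U ∧ zc x ∈ A},
        ENNReal.ofReal |(fderiv ℝ (emap φ N₁ N₂ ε) x).det| ≤
        ∫⁻ x in {x : E4 | x ∈ reg φ N₁ N₂ ε U ∧ zc x ∈ A}, gden φ N₁ N₂ (co x) := by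
      refine setLIntegral_mono' hm ?_
      intro x hx
      rw [emap_det hP hF hx.1.1]
      unfold gden
      rw [← nv_eq, co_apply]
      simp only
      apply ENNReal.ofReal_le_ofReal
      have h1 := XDet_le hε (hP.inside _ hx.1.1) hx.1.2.1 hx.1.2.2.1
      have h2 : PosII φ (nv N₁ N₂ x) (zc x) := ⟨h1.1, hx.1.2.2.1.trans_le h1.2⟩
      unfold cdet
      rw [if_pos h2, abs_of_pos hx.1.2.2.1]
      gcongr
      exact h1.2
    have hsub : {x : E4 | x ∈ reg φ N₁ N₂ ε U ∧ zc x ∈ A} ⊆ co ⁻¹' sset φ ε B := by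
      intro x hx
      have hzU := hx.1.1
      have hn : ∀ v : ℂ, ⟪nv N₁ N₂ x, d1 φ v (zc x)⟫ = 0 := by
        intro v
        rw [nv_eq]
        have := fv_normal hF (q := co x) (by rw [co_apply]; exact hzU) v
        rw [co_apply] at this ⊢
        exact this
      have hlt : ‖ee ε (φ (zc x)) • φ (zc x) + nv N₁ N₂ x‖ < 1 := hx.1.2.2.2
      have h1 := hM _ hzU _ hn hlt
      refine ⟨⟨by rw [co_apply]; exact hx.2, by rw [co_apply]; exact ⟨hzU, h1⟩⟩, ?_⟩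
      have h2 := hP.inside _ hzU
      have he : 0 < ee ε (φ (zc x)) := by
        have : 0 < 1 - ‖φ (zc x)‖ ^ 2 := by nlinarith [norm_nonneg (φ (zc x))]
        unfold ee
        positivity
      have h3 : ‖fv N₁ N₂ (co x)‖ = ‖(co x).2‖ :=
        fv_norm hF (by rw [co_apply]; exact hzU)
      rw [← nv_eq] at h3
      rw [← h3, co_apply]
      simp only
      calc ‖nv N₁ N₂ x‖ = ‖(ee ε (φ (zc x)) • φ (zc x) + nv N₁ N₂ x) -
            ee ε (φ (zc x)) • φ (zc x)‖ := by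
            congr 1
            abel
        _ ≤ ‖ee ε (φ (zc x)) • φ (zc x) + nv N₁ N₂ x‖ + ‖ee ε (φ (zc x)) • φ (zc x)‖ :=
            norm_sub_le _ _
        _ < 1 + ee ε (φ (zc x)) := by
            rw [norm_smul, Real.norm_eq_abs, abs_of_pos he]
            nlinarith
    have step2 : ∫⁻ x in {x : E4 | x ∈ reg φ N₁ N₂ ε U ∧ zc x ∈ A}, gden φ N₁ N₂ (co x) ≤
        ∫⁻ x in co ⁻¹' sset φ ε B, gden φ N₁ N₂ (co x) := lintegral_mono_set hsub
    have step3 : ∫⁻ x in co ⁻¹' sset φ ε B, gden φ N₁ N₂ (co x) =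
        ∫⁻ q in sset φ ε B, gden φ N₁ N₂ q :=
      co_mp.setLIntegral_comp_preimage_emb co.measurableEmbedding _ _
    have step4 : ∫⁻ q in sset φ ε B, gden φ N₁ N₂ q ≤
        ∫⁻ z in B, ENNReal.ofReal ((1 + ee ε (φ z)) ^ 4) * cdens φ z := by
      rw [← lintegral_indicator hSm, Measure.volume_eq_prod,
        lintegral_prod _ (aemeasurable_gden hP hF hSm hSU), ← lintegral_indicator hBm]
      refine lintegral_mono fun z => ?_
      by_cases hz : z ∈ B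
      · rw [indicator_of_mem hz]
        refine le_trans (le_of_eq ?_) (int_normal hP hF hε (hBU hz))
        rw [← lintegral_indicator measurableSet_ball]
        congr 1
        funext w
        by_cases hw : ‖w‖ < 1 + ee ε (φ z)
        · rw [indicator_of_mem (show (z, w) ∈ sset φ ε B from ⟨hz, hw⟩),
            indicator_of_mem (by rw [mem_ball_zero_iff]; exact hw)]
        · rw [indicator_of_notMem (show (z, w) ∉ sset φ ε B from fun h => hw h.2),
            indicator_of_notMem (by rw [mem_ball_zero_iff]; exact hw)]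
      · rw [indicator_of_notMem hz]
        refine le_of_eq ?_
        have : ∀ w : ℂ, (sset φ ε B).indicator (gden φ N₁ N₂) (z, w) = 0 := fun w =>
          indicator_of_notMem (show (z, w) ∉ sset φ ε B from fun h => hz h.1) _
        simp [this]
    exact step1.trans (step2.trans (step3.le.trans step4))
  · intro y s hs
    refine hc3 y s fun x hx => ?_
    obtain ⟨h1, h2, h3⟩ := hs x hx
    exact ⟨⟨h1, h2⟩, h3⟩

end Pool.Agent.W7h56.WE
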