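import Pool.Agent.W7h56.WE.Chart2
import Pool.Agent.Y232.RB.Ref
import Pool.Agent.Y297.RB.Lf

/-!
# A good linear function
-/

set_option autoImplicit false

namespace Pool.Agent.W7h56.WE

open scoped ContDiff RealInnerProductSpace ENNReal Topology
open MeasureTheory Set Metric Pool.Agent.Y503.RB Filter

/-- Coordinates of a normal vector. -/
theorem exists_coord {φ N₁ N₂ : ℂ → E4} {U : Set ℂ} (hP : Patch φ U) (hF : Frame φ N₁ N₂ U)
    {z : ℂ} (hz : z ∈ U) {w : E4} (hw : ∀ v : ℂ, ⟪w, d1 φ v z⟫ = 0) :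
    ∃ x : E4, zc x = z ∧ nv N₁ N₂ x = w := by
  have key : ∃ a b : ℝ, a • N₁ z + b • N₂ z = w := by
    by_cases h0 : w = 0
    · exact ⟨0, 0, by simp [h0]⟩
    · have hn : 0 < ‖w‖ := norm_pos_iff.mpr h0
      obtain ⟨θ, -, hθ⟩ := Pool.Agent.Y977.RB.frame φ N₁ N₂ U hP hF z hz (‖w‖⁻¹ • w)
        (by rw [norm_smul, norm_inv, norm_norm, inv_mul_cancel₀ hn.ne'])
        (fun v => by rw [inner_smul_left, hw]; simp)
      refine ⟨‖w‖ * Real.cos θ, ‖w‖ * Real.sin θ, ?_⟩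
      have : w = ‖w‖ • (‖w‖⁻¹ • w) := by
        rw [smul_smul, mul_inv_cancel₀ hn.ne', one_smul]
      rw [hθ] at this
      unfold nor at this
      rw [smul_add, smul_smul, smul_smul] at this
      exact this.symm
  obtain ⟨a, b, hab⟩ := key
  refine ⟨WithLp.toLp 2 ![z.re, z.im, a, b], ?_, ?_⟩
  · apply Complex.ext <;> simp [zc]
  · have hz : zc (WithLp.toLp 2 ![z.re, z.im, a, b]) = z := by
      apply Complex.ext <;> simp [zc]
    unfold nv
    rw [hz]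
    simpa using hab

theorem core3 {φ : ℂ → E4} (hP : Patch φ (ball 0 1)) {ε M : ℝ} (hε : 0 < ε)
    (hM : ∀ z ∈ ball (0 : ℂ) 1, ∀ w : E4, (∀ v : ℂ, ⟪w, d1 φ v z⟫ = 0) →
      ‖ee ε (φ z) • φ z + w‖ < 1 → ee ε (φ z) ≤ M) (Z : Set E4) (hZ : volume Z = 0) (m : ℕ)
    (hT : ∫⁻ z in {z | z ∈ ball (0 : ℂ) 1 ∧ ee ε (φ z) ≤ M},
      ENNReal.ofReal ((1 + ee ε (φ z)) ^ 4) * cdens φ z <
        ENNReal.ofReal (Real.pi ^ 2 / 2 * (m + 1))) :
    ∃ p : E4, 0 < ‖p‖ ∧ ‖p‖ < 1 ∧ p ∉ Z ∧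
      (∀ z ∈ ball (0 : ℂ) 1, (∀ v : ℂ, ⟪p - ee ε (φ z) • φ z, d1 φ v z⟫ = 0) →
        XDet φ ε (p - ee ε (φ z) • φ z) z ≠ 0) ∧
      ∀ s : Finset ℂ, (∀ z ∈ s, z ∈ ball (0 : ℂ) 1 ∧
        (∀ v : ℂ, ⟪p - ee ε (φ z) • φ z, d1 φ v z⟫ = 0) ∧
        0 < XX φ ε (p - ee ε (φ z) • φ z) 1 1 z ∧ 0 < XDet φ ε (p - ee ε (φ z) • φ z) z) →
        s.card ≤ m := by
  classical
  obtain ⟨N₁, N₂, U, hU, hcov⟩ := Pool.Agent.Y232.RB.Ref.cover Pool.Agent.Y297.RB.lf hP
  have hPj : ∀ j, Patch φ (U j) := fun j =>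
    Pool.Agent.Y232.RB.Ref.patch_mono hP (hU j).2.2 (hU j).1
  have hFj : ∀ j, Frame φ (N₁ j) (N₂ j) (U j) := fun j => (hU j).2.1
  let A : ℕ → Set ℂ := disjointed U
  have hAm : ∀ j, MeasurableSet (A j) := fun j =>
    MeasurableSet.disjointed (fun i => (hU i).1.measurableSet) j
  have hAU : ∀ j, A j ⊆ U j := fun j => disjointed_subset U j
  have hAd : Pairwise (Function.onFun Disjoint A) := disjoint_disjointed U
  have hAc : ball (0 : ℂ) 1 ⊆ ⋃ j, A j := by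
    rw [show (⋃ j, A j) = ⋃ j, U j from iUnion_disjointed]
    exact hcov
  choose c hc1 hc2 hc3 using fun j => chart (hPj j) (hFj j) hε (hAm j) (hAU j)
    (fun z hz w hw h => hM z ((hU j).2.2 hz) w hw h)
  let C : E4 → ℝ≥0∞ := fun y => ∑' j, c j y
  have hBm : ∀ j, MeasurableSet (A j ∩ {z | z ∈ U j ∧ ee ε (φ z) ≤ M}) := by
    intro j
    have hBo : IsOpen (U j ∩ (fun z => ee ε (φ z)) ⁻¹' Ioi M) :=
      (c_ee (hPj j) ε).isOpen_inter_preimage (hPj j).isOpen isOpen_Ioi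
    have hBe : A j ∩ {z | z ∈ U j ∧ ee ε (φ z) ≤ M} =
        A j \ (U j ∩ (fun z => ee ε (φ z)) ⁻¹' Ioi M) := by
      ext z
      simp only [mem_inter_iff, mem_ofPred_eq, mem_diff, mem_preimage, mem_Ioi, not_and, not_lt]
      constructor
      · rintro ⟨h1, h2, h3⟩
        exact ⟨h1, fun _ => h3⟩
      · rintro ⟨h1, h2⟩
        exact ⟨h1, hAU j h1, h2 (hAU j h1)⟩
    rw [hBe]
    exact (hAm j).diff hBo.measurableSet
  have hCi : ∫⁻ y, C y ≤ ∫⁻ z in {z | z ∈ ball (0 : ℂ) 1 ∧ ee ε (φ z) ≤ M},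
      ENNReal.ofReal ((1 + ee ε (φ z)) ^ 4) * cdens φ z := by
    rw [lintegral_tsum (fun j => (hc1 j).aemeasurable)]
    refine (ENNReal.tsum_le_tsum hc2).trans ?_
    rw [← lintegral_iUnion hBm]
    · apply lintegral_mono_set
      refine iUnion_subset fun j z hz => ⟨(hU j).2.2 hz.2.1, hz.2.2⟩
    · intro i j hij
      exact (hAd hij).mono inter_subset_left inter_subset_left
  let B : Set E4 := {y | ((m + 1 : ℕ) : ℝ≥0∞) ≤ C y}
  let S : ℕ → Set E4 := fun i => emap φ (N₁ i) (N₂ i) ε ''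
    {x | zc x ∈ U i ∧ (fderiv ℝ (emap φ (N₁ i) (N₂ i) ε) x).det = 0}
  have hS : ∀ i, volume (S i) = 0 := by
    intro i
    refine addHaar_image_eq_zero_of_det_fderivWithin_eq_zero volume
      (f' := fun x => fderiv ℝ (emap φ (N₁ i) (N₂ i) ε) x) ?_ (fun x hx => hx.2)
    intro x hx
    exact (((emap_smooth (hPj i) (hFj i) (ε := ε) hx.1).differentiableAt
      (by simp)).hasFDerivAt).hasFDerivWithinAt
  have hCm : Measurable C := Measurable.ennreal_tsum hc1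
  have hex : ∃ y ∈ ball (0 : E4) 1, y ∉ B ∪ (Z ∪ ((⋃ i, S i) ∪ {0})) := by
    by_contra hc
    push Not at hc
    have h1 : volume (ball (0 : E4) 1) ≤ volume B := by
      calc volume (ball (0 : E4) 1) ≤ volume (B ∪ (Z ∪ ((⋃ i, S i) ∪ {0}))) :=
            measure_mono hc
        _ ≤ volume B + volume (Z ∪ ((⋃ i, S i) ∪ {0})) := measure_union_le _ _
        _ = volume B := by
            have : volume (Z ∪ ((⋃ i, S i) ∪ {0})) = 0 := by
              rw [measure_union_null_iff, measure_union_null_iff, measure_iUnion_null_iff]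
              exact ⟨hZ, hS, measure_singleton _⟩
            rw [this, add_zero]
    have h2 : ((m + 1 : ℕ) : ℝ≥0∞) * volume B ≤ ∫⁻ y, C y := mul_meas_ge_le_lintegral hCm _
    have h4 : ENNReal.ofReal (Real.pi ^ 2 / 2 * (m + 1)) =
        ((m + 1 : ℕ) : ℝ≥0∞) * ENNReal.ofReal (Real.pi ^ 2 / 2) := by
      rw [← ENNReal.ofReal_natCast, ← ENNReal.ofReal_mul (by positivity)]
      congr 1
      push_cast
      ring
    rw [volume_ball_E4] at h1
    have h5 : ((m + 1 : ℕ) : ℝ≥0∞) * ENNReal.ofReal (Real.pi ^ 2 / 2) ≤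
        ((m + 1 : ℕ) : ℝ≥0∞) * volume B := mul_le_mul_right h1 _
    rw [h4] at hT
    exact absurd (h5.trans (h2.trans hCi)) (not_le.mpr hT)
  obtain ⟨y, hy, hyn⟩ := hex
  simp only [mem_union, not_or, mem_iUnion, not_exists] at hyn
  obtain ⟨hB, hZn, hSn, h0⟩ := hyn
  have hy0 : y ≠ 0 := h0
  refine ⟨y, norm_pos_iff.mpr hy0, by simpa using hy, hZn, ?_, ?_⟩
  · intro z hz hn hX
    obtain ⟨i, hi⟩ := mem_iUnion.mp (hcov hz)
    obtain ⟨x, hx1, hx2⟩ := exists_coord (hPj i) (hFj i) hi hn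
    apply hSn i
    refine ⟨x, ⟨by rw [hx1]; exact hi, ?_⟩, ?_⟩
    · have h1 := emap_det (hPj i) (hFj i) (ε := ε) (x := x) (by rw [hx1]; exact hi)
      rw [hx1, hx2, hX, abs_zero, zero_div] at h1
      exact abs_eq_zero.mp h1
    · show ee ε (φ (zc x)) • φ (zc x) + nv (N₁ i) (N₂ i) x = y
      rw [hx1, hx2]
      abel
  · intro s hs
    by_contra hcard
    push Not at hcard
    apply hB
    show ((m + 1 : ℕ) : ℝ≥0∞) ≤ C y
    -- the chart and the coordinates belonging to a point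
    have hpt : ∀ z : ℂ, ∃ (i : ℕ) (x : E4), z ∈ s → z ∈ A i ∧ zc x = z ∧
        nv (N₁ i) (N₂ i) x = y - ee ε (φ z) • φ z := by
      intro z
      by_cases hz : z ∈ s
      · obtain ⟨h1, h2, -, -⟩ := hs z hz
        obtain ⟨i, hi⟩ := mem_iUnion.mp (hAc h1)
        obtain ⟨x, hx1, hx2⟩ := exists_coord (hPj i) (hFj i) (hAU i hi) h2
        exact ⟨i, x, fun _ => ⟨hi, hx1, hx2⟩⟩
      · exact ⟨0, 0, fun h => absurd h hz⟩
    choose idx pt hpt using hpt
    have h1 : (s.card : ℝ≥0∞) = ∑ i ∈ s.image idx,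
        (((s.filter (fun z => idx z = i)).card : ℕ) : ℝ≥0∞) := by
      rw [Finset.card_eq_sum_card_image idx s]
      push_cast
      rfl
    have h2 : ∀ i, (((s.filter (fun z => idx z = i)).card : ℕ) : ℝ≥0∞) ≤ c i y := by
      intro i
      have h3 : ((s.filter (fun z => idx z = i)).image pt).card =
          (s.filter (fun z => idx z = i)).card := by
        refine Finset.card_image_of_injOn ?_
        intro a ha b hb hab
        have ha' := (hpt a (Finset.mem_filter.mp ha).1).2.1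
        have hb' := (hpt b (Finset.mem_filter.mp hb).1).2.1
        rw [← ha', ← hb']
        exact congrArg zc hab
      rw [← h3]
      refine hc3 i y _ fun x hx => ?_
      obtain ⟨z, hz, rfl⟩ := Finset.mem_image.mp hx
      obtain ⟨hz1, rfl⟩ := Finset.mem_filter.mp hz
      obtain ⟨g1, g2, g3⟩ := hpt z hz1
      obtain ⟨k1, k2, k3, k4⟩ := hs z hz1
      have hem : emap φ (N₁ (idx z)) (N₂ (idx z)) ε (pt z) = y := by
        show ee ε (φ (zc (pt z))) • φ (zc (pt z)) + nv (N₁ (idx z)) (N₂ (idx z)) (pt z) = y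
        rw [g2, g3]
        abel
      refine ⟨⟨?_, ?_, ?_, ?_⟩, ?_, hem⟩
      · rw [g2]
        exact hAU _ g1
      · rw [g2, g3]
        exact k3
      · rw [g2, g3]
        exact k4
      · rw [hem]
        simpa using hy
      · rw [g2]
        exact g1
    calc ((m + 1 : ℕ) : ℝ≥0∞) ≤ (s.card : ℝ≥0∞) := by exact_mod_cast hcard
      _ ≤ ∑ i ∈ s.image idx, c i y := by
          rw [h1]
          exact Finset.sum_le_sum fun i _ => h2 i
      _ ≤ ∑' i, c i y := ENNReal.sum_le_tsum _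

end Pool.Agent.W7h56.WE
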