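import Pool.Agent.W7h56.WE.Psi2
import Pool.Agent.Y640.RB.Calc
import Pool.Agent.Y692.RB.DG
import Pool.Agent.Y349.RB.CONT

/-!
# Critical points of `FF p ε` on a surface
-/

set_option autoImplicit false

namespace Pool.Agent.W7h56.WE

open scoped ContDiff RealInnerProductSpace ENNReal Topology
open MeasureTheory Set Metric Pool.Agent.Y503.RB Filter

/-- The factor `4 ε / (1 - |x|²)³`. -/
noncomputable def kk (ε : ℝ) (x : E4) : ℝ := 4 * ε / (1 - ‖x‖ ^ 2) ^ 3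

/-- The form whose negative is half of the second derivative of `FF p ε ∘ φ` at a critical point,
`w` being the normal component. -/
noncomputable def XX (φ : ℂ → E4) (ε : ℝ) (w : E4) (u v z : ℂ) : ℝ :=
  sff φ w u v z - ee ε (φ z) * fff φ u v z - kk ε (φ z) * (⟪φ z, d1 φ u z⟫ * ⟪φ z, d1 φ v z⟫)

/-- Its determinant. -/
noncomputable def XDet (φ : ℂ → E4) (ε : ℝ) (w : E4) (z : ℂ) : ℝ :=
  XX φ ε w 1 1 z * XX φ ε w Complex.I Complex.I z - XX φ ε w 1 Complex.I z ^ 2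

theorem hasFDerivAt_nsq {φ : ℂ → E4} {z : ℂ} (h : DifferentiableAt ℝ φ z) :
    HasFDerivAt (fun w => ‖φ w‖ ^ 2) ((2 : ℝ) • (innerSL ℝ (φ z)).comp (fderiv ℝ φ z)) z := by
  have h1 : HasFDerivAt (fun x : E4 => ‖x‖ ^ 2) (2 • (innerSL ℝ (φ z))) (φ z) :=
    (hasStrictFDerivAt_norm_sq (φ z)).hasFDerivAt
  refine HasFDerivAt.congr_fderiv (f := fun w => ‖φ w‖ ^ 2) (h1.comp z h.hasFDerivAt) ?_
  ext v
  simp

theorem ee_fderiv {φ : ℂ → E4} {ε : ℝ} {z : ℂ} (h : DifferentiableAt ℝ φ z) (h1 : ‖φ z‖ < 1) :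
    HasFDerivAt (fun w => ee ε (φ w)) (kk ε (φ z) • (innerSL ℝ (φ z)).comp (fderiv ℝ φ z)) z := by
  have hX : 0 < 1 - ‖φ z‖ ^ 2 := by nlinarith [norm_nonneg (φ z)]
  have h2 := (hasFDerivAt_nsq h).const_sub 1
  have h3 : HasDerivAt (fun s : ℝ => ε / s ^ 2) (-2 * ε / (1 - ‖φ z‖ ^ 2) ^ 3)
      (1 - ‖φ z‖ ^ 2) := by
    have h4 : HasDerivAt (fun s : ℝ => (s ^ 2)⁻¹) _ (1 - ‖φ z‖ ^ 2) :=
      (hasDerivAt_pow 2 (1 - ‖φ z‖ ^ 2)).fun_inv (pow_ne_zero 2 hX.ne')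
    have h5 := h4.const_mul ε
    have e : (fun s : ℝ => ε / s ^ 2) = fun s : ℝ => ε * (s ^ 2)⁻¹ := by
      funext s
      rw [div_eq_mul_inv]
    rw [e]
    refine h5.congr_deriv ?_
    field_simp
    ring
  have h6 := h3.comp_hasFDerivAt z h2
  have e : (fun w => ee ε (φ w)) = (fun s : ℝ => ε / s ^ 2) ∘ fun w => 1 - ‖φ w‖ ^ 2 := rfl
  rw [e]
  refine h6.congr_fderiv ?_
  unfold kk
  ext v
  simp
  field_simp
  ring

theorem FF_fderiv {φ : ℂ → E4} {p : E4} {ε : ℝ} {z : ℂ} (h : DifferentiableAt ℝ φ z)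
    (h1 : ‖φ z‖ < 1) (v : ℂ) :
    fderiv ℝ (fun w => FF p ε (φ w)) z v = 2 * ⟪ee ε (φ z) • φ z - p, d1 φ v z⟫ := by
  have hX : 0 < 1 - ‖φ z‖ ^ 2 := by nlinarith [norm_nonneg (φ z)]
  have h2 := (hasFDerivAt_nsq h).const_sub 1
  have h3 : HasDerivAt (fun s : ℝ => ε / s) (-ε / (1 - ‖φ z‖ ^ 2) ^ 2)
      (1 - ‖φ z‖ ^ 2) := by
    have h4 := (hasDerivAt_inv hX.ne').const_mul ε
    have e : (fun s : ℝ => ε / s) = fun s : ℝ => ε * s⁻¹ := by
      funext s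
      rw [div_eq_mul_inv]
    rw [e]
    refine h4.congr_deriv ?_
    field_simp
  have h6 := h3.comp_hasFDerivAt z h2
  have h7 : HasFDerivAt (fun w => ⟪φ w, p⟫) ((innerSL ℝ p).comp (fderiv ℝ φ z)) z := by
    have := (innerSL ℝ p).hasFDerivAt (x := φ z)
    refine (this.comp z h.hasFDerivAt).congr_of_eventuallyEq (Filter.Eventually.of_forall fun y => ?_)
    simp [real_inner_comm]
  have h8 := ((h7.const_mul 2).const_sub 2).add h6
  have h9 := h8.fderiv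
  have e : (fun w => FF p ε (φ w)) =
      (fun w => 2 - 2 * ⟪φ w, p⟫) + ((fun s : ℝ => ε / s) ∘ fun w => 1 - ‖φ w‖ ^ 2) := rfl
  rw [e]
  refine (congrArg (fun L : ℂ →L[ℝ] ℝ => L v) h9).trans ?_
  simp only [add_apply, smul_apply, neg_apply, ContinuousLinearMap.comp_apply,
    innerSL_apply_apply, smul_eq_mul, inner_sub_left, inner_smul_left, conj_trivial]
  unfold ee d1
  field_simp
  ring

theorem FF_hess {φ : ℂ → E4} {U : Set ℂ} (hP : Patch φ U) {p : E4} {ε : ℝ} {z : ℂ} (hz : z ∈ U)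
    (u v : ℂ) :
    fderiv ℝ (fderiv ℝ (fun w => FF p ε (φ w))) z u v =
      -2 * XX φ ε (p - ee ε (φ z) • φ z) u v z := by
  have hU := hP.isOpen.mem_nhds hz
  have cφ : ContDiffAt ℝ ∞ φ z := hP.smooth.contDiffAt hU
  have dφ : DifferentiableAt ℝ φ z := cφ.differentiableAt (by simp)
  have h1 := hP.inside z hz
  have hX : 0 < 1 - ‖φ z‖ ^ 2 := by nlinarith [norm_nonneg (φ z)]
  have cF : ContDiffAt ℝ ∞ (fun w => FF p ε (φ w)) z := by
    unfold FF
    refine (contDiffAt_const.sub (contDiffAt_const.mul (cφ.inner ℝ contDiffAt_const))).add ?_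
    exact contDiffAt_const.div (contDiffAt_const.sub (cφ.norm_sq ℝ)) hX.ne'
  have hd := Pool.Agent.Y640.RB.diffFderiv cF
  have e1 : fderiv ℝ (fderiv ℝ (fun w => FF p ε (φ w))) z u v =
      fderiv ℝ (fun y => fderiv ℝ (fun w => FF p ε (φ w)) y v) z u := by
    have h3 : HasFDerivAt (fun w => fderiv ℝ (fun w => FF p ε (φ w)) w v)
        ((fderiv ℝ (fderiv ℝ (fun w => FF p ε (φ w))) z).flip v) z := by
      have h5 := hd.hasFDerivAt.clm_apply (hasFDerivAt_const v z)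
      have h6 : (fderiv ℝ (fun w => FF p ε (φ w)) z ∘SL (0 : ℂ →L[ℝ] ℂ) +
          (fderiv ℝ (fderiv ℝ (fun w => FF p ε (φ w))) z).flip v) =
          (fderiv ℝ (fderiv ℝ (fun w => FF p ε (φ w))) z).flip v := by simp
      exact h6 ▸ h5
    rw [h3.fderiv]
    rfl
  have e2 : (fun y => fderiv ℝ (fun w => FF p ε (φ w)) y v) =ᶠ[𝓝 z]
      fun y => 2 * ⟪ee ε (φ y) • φ y - p, d1 φ v y⟫ := by
    filter_upwards [hU] with y hy
    exact FF_fderiv ((hP.smooth.contDiffAt (hP.isOpen.mem_nhds hy)).differentiableAt (by simp))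
      (hP.inside y hy) v
  rw [e1, e2.fderiv_eq]
  have ddφ : DifferentiableAt ℝ (fun w => d1 φ v w) z := by
    have h1 : ContDiffAt ℝ 1 (fderiv ℝ φ) z := cφ.fderiv_right (by norm_cast)
    exact (h1.differentiableAt (by simp)).clm_apply (differentiableAt_const v)
  have h3 := ((ee_fderiv (ε := ε) dφ h1).smul dφ.hasFDerivAt).sub_const p
  have h4 : DifferentiableAt ℝ (fun y => ee ε (φ y) • φ y - p) z := h3.differentiableAt
  have h5 := fderiv_inner_apply ℝ h4 ddφ u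
  have h6 : DifferentiableAt ℝ (fun y => ⟪ee ε (φ y) • φ y - p, d1 φ v y⟫) z := h4.inner ℝ ddφ
  rw [fderiv_const_mul h6, smul_apply, h5]
  have h7 : fderiv ℝ (fun y => ee ε (φ y) • φ y - p) z u =
      ee ε (φ z) • d1 φ u z + (kk ε (φ z) * ⟪φ z, d1 φ u z⟫) • φ z := by
    refine (congrArg (fun L : ℂ →L[ℝ] E4 => L u) h3.fderiv).trans ?_
    simp [d1]
  rw [h7]
  have h8 : fderiv ℝ (fun w => d1 φ v w) z u = d2 φ u v z := rfl
  rw [h8]
  unfold XX sff fff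
  simp only [inner_add_left, inner_sub_left, inner_smul_left, conj_trivial, smul_eq_mul]
  ring

/-- First and second derivative of `g ∘ f` at a critical point of `f`. -/
theorem comp_crit {g : ℝ → ℝ} {f : ℂ → ℝ} {z : ℂ} (hf : ContDiffAt ℝ ∞ f z)
    (hg : ContDiffAt ℝ ∞ g (f z)) (hg' : deriv g (f z) ≠ 0) :
    (fderiv ℝ (fun w => g (f w)) z = 0 ↔ fderiv ℝ f z = 0) ∧
    (fderiv ℝ f z = 0 → ∀ u v : ℂ, fderiv ℝ (fderiv ℝ (fun w => g (f w))) z u v =
      deriv g (f z) * fderiv ℝ (fderiv ℝ f) z u v) := by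
  have hfd : ∀ᶠ w in 𝓝 z, DifferentiableAt ℝ f w := Pool.Agent.Y640.RB.evDiff hf
  have hgd : ∀ᶠ w in 𝓝 z, DifferentiableAt ℝ g (f w) := by
    have h1 : ContDiffAt ℝ 1 g (f z) := hg.of_le (by exact_mod_cast le_top)
    have h2 : ∀ᶠ s in 𝓝 (f z), ContDiffAt ℝ 1 g s := h1.eventually (by simp)
    exact (hf.continuousAt.eventually h2).mono fun w hw => hw.differentiableAt (by simp)
  have hev : ∀ᶠ w in 𝓝 z, fderiv ℝ (fun w => g (f w)) w = deriv g (f w) • fderiv ℝ f w := by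
    filter_upwards [hfd, hgd] with w h1 h2
    exact (h2.hasDerivAt.comp_hasFDerivAt w h1.hasFDerivAt).fderiv
  refine ⟨?_, ?_⟩
  · rw [hev.self_of_nhds, smul_eq_zero]
    tauto
  · intro h0 u v
    have h1 : fderiv ℝ (fun w => g (f w)) =ᶠ[𝓝 z] fun w => deriv g (f w) • fderiv ℝ f w := hev
    rw [h1.fderiv_eq]
    have h2 : DifferentiableAt ℝ (fun w => deriv g (f w)) z := by
      have h3 : ContDiffAt ℝ 1 (deriv g) (f z) := by
        have h4 : ContDiffAt ℝ 1 (fderiv ℝ g) (f z) := hg.fderiv_right (by norm_cast)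
        exact h4.clm_apply contDiffAt_const
      exact (h3.differentiableAt (by simp)).comp z hfd.self_of_nhds
    have h3 : HasFDerivAt (fun w => deriv g (f w) • fderiv ℝ f w) _ z :=
      h2.hasFDerivAt.smul (Pool.Agent.Y640.RB.diffFderiv hf).hasFDerivAt
    rw [h3.fderiv, h0]
    simp

end Pool.Agent.W7h56.WE
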