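import Pool.Agent.Y503.RB.Disc

/-!
# Linear height functions on slice discs: definitions

`FF p ε` is a proper strictly convex function on the open unit ball which is close to the affine
function `2 - 2 ⟪x, p⟫` away from the sphere; `psi` turns its level sets into spheres around the
origin and is the identity on the unit sphere.
-/

set_option autoImplicit false

namespace Pool.Agent.W7h56.WE

open scoped ContDiff RealInnerProductSpace ENNReal Topology
open MeasureTheory Set Metric Pool.Agent.Y503.RB

/-- The factor `ε / (1 - |x|²)²`. -/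
noncomputable def ee (ε : ℝ) (x : E4) : ℝ := ε / (1 - ‖x‖ ^ 2) ^ 2

/-- The convex function `2 - 2 ⟪x, p⟫ + ε / (1 - |x|²)`. -/
noncomputable def FF (p : E4) (ε : ℝ) (x : E4) : ℝ := 2 - 2 * ⟪x, p⟫ + ε / (1 - ‖x‖ ^ 2)

/-- The denominator of `1 / FF`. -/
noncomputable def DD (p : E4) (ε : ℝ) (x : E4) : ℝ := (1 - ‖x‖ ^ 2) * (2 - 2 * ⟪x, p⟫) + ε

/-- `1 / FF`, extended by `0` to the unit sphere. -/
noncomputable def QQ (p : E4) (ε : ℝ) (x : E4) : ℝ := (1 - ‖x‖ ^ 2) / DD p ε x

/-- The factor in the radial projection from `q`. -/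
noncomputable def lam (q x : E4) : ℝ :=
  (-⟪q, x - q⟫ + √(⟪q, x - q⟫ ^ 2 + ‖x - q‖ ^ 2 * (1 - ‖q‖ ^ 2))) / ‖x - q‖ ^ 2

/-- Radial projection from `q` to the unit sphere. -/
noncomputable def rproj (q x : E4) : E4 := q + lam q x • (x - q)

/-- The map which turns the level sets of `FF p ε` into spheres around `0` and is the identity on
the unit sphere. -/
noncomputable def psi (p q : E4) (ε : ℝ) (x : E4) : E4 := Real.exp (-QQ p ε x) • rproj q x

/-- Trace of the second derivative (with values in `E4`) with respect to the first fundamental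
form, times its determinant. -/
noncomputable def trD2 (φ : ℂ → E4) (z : ℂ) : E4 :=
  fff φ Complex.I Complex.I z • d2 φ 1 1 z - (2 * fff φ 1 Complex.I z) • d2 φ 1 Complex.I z +
    fff φ 1 1 z • d2 φ Complex.I Complex.I z

/-- The mean curvature vector: half of the trace of the second fundamental form. -/
noncomputable def meanCurv (φ : ℂ → E4) (z : ℂ) : E4 :=
  (2 * fffDet φ z)⁻¹ • (Submodule.span ℝ {d1 φ 1 z, d1 φ Complex.I z})ᗮ.starProjection (trD2 φ z)

/-- The Willmore energy density with respect to the parameter `z`. -/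
noncomputable def wdens (φ : ℂ → E4) (z : ℂ) : ℝ := ‖meanCurv φ z‖ ^ 2 * √(fffDet φ z)

/-- Willmore energy: the integral of `|H|²` over the surface. -/
noncomputable def willmore (φ : ℂ → E4) : ℝ≥0∞ :=
  ∫⁻ z in ball (0 : ℂ) 1, ENNReal.ofReal (‖meanCurv φ z‖ ^ 2 * √(fffDet φ z))

/-- Determinant of the second fundamental form in the direction `w`. -/
noncomputable def sffDet (φ : ℂ → E4) (w : E4) (z : ℂ) : ℝ :=
  sff φ w 1 1 z * sff φ w Complex.I Complex.I z - sff φ w 1 Complex.I z ^ 2

end Pool.Agent.W7h56.WE
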