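import Pool.Agent.W7h56.WE.Core3

/-!
# Bounds near the boundary; the limit; critical points of the norm of `psi ∘ φ`
-/

set_option autoImplicit false

namespace Pool.Agent.W7h56.WE

open scoped ContDiff RealInnerProductSpace ENNReal Topology
open MeasureTheory Set Metric Pool.Agent.Y503.RB Filter

/-- Near the boundary the disc is transverse to the sphere: a bound for `ee`. -/
theorem exists_M {φ : ℂ → E4} (h : SliceDisc φ) : ∃ M : ℝ, 0 ≤ M ∧ ∀ ε : ℝ, 0 < ε → ε ≤ 1 →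
    ∀ z ∈ ball (0 : ℂ) 1, ∀ w : E4, (∀ v : ℂ, ⟪w, d1 φ v z⟫ = 0) →
      ‖ee ε (φ z) • φ z + w‖ < 1 → ee ε (φ z) ≤ M := by
  obtain ⟨W, hW, hsub, hs⟩ := h.smooth
  have hd : ContinuousOn (fun z => d1 φ z z) (closedBall (0 : ℂ) 1) := by
    have h1 : ContinuousOn (fun z => fderiv ℝ φ z) W :=
      hs.continuousOn_fderiv_of_isOpen hW (by simp)
    exact (h1.mono hsub).clm_apply continuousOn_id
  have hφ : ContinuousOn φ (closedBall (0 : ℂ) 1) := hs.continuousOn.mono hsub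
  have hcomp : IsCompact (closedBall (0 : ℂ) 1) := isCompact_closedBall 0 1
  have hne : (closedBall (0 : ℂ) 1).Nonempty := ⟨0, by simp⟩
  let g : ℂ → ℝ := fun z => max (1 - ‖φ z‖ ^ 2) ⟪φ z, d1 φ z z⟫
  have hg1 : ContinuousOn (fun z => 1 - ‖φ z‖ ^ 2) (closedBall (0 : ℂ) 1) :=
    continuousOn_const.sub (hφ.norm.pow 2)
  have hg2 : ContinuousOn (fun z => ⟪φ z, d1 φ z z⟫) (closedBall (0 : ℂ) 1) := hφ.inner hd
  have hg : ContinuousOn g (closedBall (0 : ℂ) 1) := hg1.sup hg2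
  obtain ⟨z₀, hz₀, hmin⟩ := hcomp.exists_isMinOn hne hg
  have hτ : 0 < g z₀ := by
    rcases (mem_closedBall_zero_iff.mp hz₀).lt_or_eq with h1 | h1
    · have h2 := h.inside z₀ (mem_ball_zero_iff.mpr h1)
      have : 0 < 1 - ‖φ z₀‖ ^ 2 := by nlinarith [norm_nonneg (φ z₀)]
      exact lt_max_of_lt_left this
    · have h2 := h.trans z₀ (mem_sphere_zero_iff_norm.mpr h1)
      have h3 : DifferentiableAt ℝ φ z₀ :=
        (hs.contDiffAt (hW.mem_nhds (hsub hz₀))).differentiableAt (by simp)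
      rw [(hasFDerivAt_nsq h3).fderiv] at h2
      have h4 : (0 : ℝ) < 2 * ⟪φ z₀, d1 φ z₀ z₀⟫ := by simpa [d1] using h2
      exact lt_max_of_lt_right (by linarith)
  obtain ⟨C, hC⟩ := hcomp.exists_bound_of_continuousOn hd
  have hC0 : 0 ≤ C := (norm_nonneg _).trans (hC z₀ hz₀)
  refine ⟨max (1 / g z₀ ^ 2) (C / g z₀), le_max_of_le_left (by positivity), ?_⟩
  intro ε hε hε1 z hz w hw hlt
  have hzc := ball_subset_closedBall hz
  have h1 : g z₀ ≤ g z := hmin hzc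
  have h2 := h.inside z hz
  have h3 : 0 < 1 - ‖φ z‖ ^ 2 := by nlinarith [norm_nonneg (φ z)]
  rcases le_max_iff.mp h1 with h4 | h4
  · refine le_max_of_le_left ?_
    unfold ee
    calc ε / (1 - ‖φ z‖ ^ 2) ^ 2 ≤ 1 / (1 - ‖φ z‖ ^ 2) ^ 2 := by gcongr
      _ ≤ 1 / g z₀ ^ 2 := by gcongr
  · refine le_max_of_le_right ?_
    rw [le_div_iff₀ hτ]
    have h5 : 0 < ee ε (φ z) := by unfold ee; positivity
    have h6 : ⟪ee ε (φ z) • φ z + w, d1 φ z z⟫ = ee ε (φ z) * ⟪φ z, d1 φ z z⟫ := by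
      rw [inner_add_left, inner_smul_left, hw]
      simp
    have h7 : ⟪ee ε (φ z) • φ z + w, d1 φ z z⟫ ≤ ‖ee ε (φ z) • φ z + w‖ * ‖d1 φ z z‖ :=
      real_inner_le_norm _ _
    have h8 := hC z hzc
    calc ee ε (φ z) * g z₀ ≤ ee ε (φ z) * ⟪φ z, d1 φ z z⟫ := by gcongr
      _ ≤ ‖ee ε (φ z) • φ z + w‖ * ‖d1 φ z z‖ := by rw [← h6]; exact h7
      _ ≤ 1 * C := by
          refine mul_le_mul hlt.le h8 (norm_nonneg _) zero_le_one
      _ = C := one_mul C

/-- For small `ε` the bound is close to its limit. -/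
theorem exists_eps {φ : ℂ → E4} (hP : Patch φ (ball 0 1)) {M T : ℝ} (hM : 0 ≤ M)
    (hK : ∫⁻ z in ball (0 : ℂ) 1, cdens φ z < ENNReal.ofReal T) :
    ∃ ε : ℝ, 0 < ε ∧ ε ≤ 1 ∧ ∫⁻ z in {z | z ∈ ball (0 : ℂ) 1 ∧ ee ε (φ z) ≤ M},
      ENNReal.ofReal ((1 + ee ε (φ z)) ^ 4) * cdens φ z < ENNReal.ofReal T := by
  set K := ∫⁻ z in ball (0 : ℂ) 1, cdens φ z with hKd
  have hKt : K ≠ ⊤ := (hK.trans ENNReal.ofReal_lt_top).ne
  have hTp : 0 < T := by
    by_contra hc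
    push Not at hc
    rw [ENNReal.ofReal_eq_zero.mpr hc] at hK
    exact not_lt_zero hK
  have hKr : K.toReal < T := by
    rw [← ENNReal.toReal_ofReal hTp.le]
    exact (ENNReal.toReal_lt_toReal hKt ENNReal.ofReal_ne_top).mpr hK
  -- choice of δ
  obtain ⟨δ, hδ0, hδ⟩ : ∃ δ : ℝ, 0 < δ ∧ (1 + δ) ^ 4 * K.toReal < T := by
    have h1 : Tendsto (fun δ : ℝ => (1 + δ) ^ 4 * K.toReal) (𝓝[>] 0)
        (𝓝 ((1 + 0) ^ 4 * K.toReal)) := by
      have h2 : Continuous (fun δ : ℝ => (1 + δ) ^ 4 * K.toReal) := by fun_prop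
      exact (h2.tendsto 0).mono_left nhdsWithin_le_nhds
    have h3 : (1 + 0 : ℝ) ^ 4 * K.toReal < T := by simpa using hKr
    have h4 := h1.eventually (gt_mem_nhds h3)
    obtain ⟨δ, hδ1, hδ2⟩ := (h4.and self_mem_nhdsWithin).exists
    exact ⟨δ, hδ2, hδ1⟩
  have hpos : ∀ z ∈ ball (0 : ℂ) 1, 0 < 1 - ‖φ z‖ ^ 2 := by
    intro z hz
    have := hP.inside z hz
    nlinarith [norm_nonneg (φ z)]
  let e : ℕ → ℝ := fun k => 1 / ((k : ℝ) + 1)
  have he0 : ∀ k, 0 < e k := fun k => by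
    show 0 < 1 / ((k : ℝ) + 1)
    positivity
  have he1 : ∀ k, e k ≤ 1 := fun k => by
    show 1 / ((k : ℝ) + 1) ≤ 1
    rw [div_le_one (by positivity)]
    have : (0 : ℝ) ≤ k := Nat.cast_nonneg k
    linarith
  let S : ℕ → Set ℂ := fun k => ball 0 1 ∩ (fun z => ee (e k) (φ z)) ⁻¹' Ioi δ
  have hSo : ∀ k, IsOpen (S k) := fun k =>
    (c_ee hP (e k)).isOpen_inter_preimage isOpen_ball isOpen_Ioi
  have hSanti : Antitone S := by
    intro i j hij z hz
    refine ⟨hz.1, ?_⟩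
    have h1 : δ < ee (e j) (φ z) := hz.2
    show δ < ee (e i) (φ z)
    refine h1.trans_le ?_
    have := hpos z hz.1
    unfold ee
    have h2 : e j ≤ e i := by
      show 1 / ((j : ℝ) + 1) ≤ 1 / ((i : ℝ) + 1)
      have : (i : ℝ) ≤ j := by exact_mod_cast hij
      gcongr
    gcongr
  have hSe : ⋂ k, S k = ∅ := by
    rw [eq_empty_iff_forall_notMem]
    intro z hz
    rw [mem_iInter] at hz
    have h0 := hpos z (hz 0).1
    have h1 : Tendsto (fun k : ℕ => ee (e k) (φ z)) atTop (𝓝 0) := by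
      have h2 : Tendsto (fun k : ℕ => e k / (1 - ‖φ z‖ ^ 2) ^ 2) atTop
          (𝓝 (0 / (1 - ‖φ z‖ ^ 2) ^ 2)) :=
        (tendsto_one_div_add_atTop_nhds_zero_nat (𝕜 := ℝ)).div_const _
      rw [zero_div] at h2
      exact h2
    obtain ⟨k, hk⟩ := (h1.eventually (gt_mem_nhds hδ0)).exists
    exact absurd (hz k).2 (not_lt.mpr hk.le)
  let ν : Measure ℂ := (volume.restrict (ball (0 : ℂ) 1)).withDensity (cdens φ)
  have hν : ∀ s, MeasurableSet s → ν s = ∫⁻ z in s ∩ ball 0 1, cdens φ z := by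
    intro s hs
    show (volume.restrict (ball (0 : ℂ) 1)).withDensity (cdens φ) s = _
    rw [withDensity_apply _ hs, Measure.restrict_restrict hs]
  have hfin : ν (S 0) ≠ ⊤ := by
    rw [hν _ (hSo 0).measurableSet]
    refine ((lintegral_mono_set inter_subset_right).trans_lt ?_).ne
    exact lt_top_iff_ne_top.mpr hKt
  have hlim : Tendsto (fun k => ν (S k)) atTop (𝓝 0) := by
    have h1 := tendsto_measure_iInter_atTop (μ := ν) (s := S)
      (fun k => (hSo k).measurableSet.nullMeasurableSet) hSanti ⟨0, hfin⟩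
    rw [hSe, measure_empty] at h1
    exact h1
  have hlim2 : Tendsto (fun k => ENNReal.ofReal ((1 + M) ^ 4) * ν (S k)) atTop (𝓝 0) := by
    have := ENNReal.Tendsto.const_mul (a := ENNReal.ofReal ((1 + M) ^ 4)) hlim
      (Or.inr ENNReal.ofReal_ne_top)
    rwa [mul_zero] at this
  have hgap : 0 < ENNReal.ofReal (T - (1 + δ) ^ 4 * K.toReal) :=
    ENNReal.ofReal_pos.mpr (by linarith)
  obtain ⟨k, hk⟩ := (hlim2.eventually (gt_mem_nhds hgap)).exists
  refine ⟨e k, he0 k, he1 k, ?_⟩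
  have hS2 : MeasurableSet (S k ∩ {z | z ∈ ball (0 : ℂ) 1 ∧ ee (e k) (φ z) ≤ M}) := by
    have hBo : IsOpen (ball (0 : ℂ) 1 ∩ (fun z => ee (e k) (φ z)) ⁻¹' Ioi M) :=
      (c_ee hP (e k)).isOpen_inter_preimage isOpen_ball isOpen_Ioi
    have hBe : S k ∩ {z | z ∈ ball (0 : ℂ) 1 ∧ ee (e k) (φ z) ≤ M} =
        S k \ (ball (0 : ℂ) 1 ∩ (fun z => ee (e k) (φ z)) ⁻¹' Ioi M) := by
      ext z
      simp only [mem_inter_iff, mem_ofPred_eq, mem_diff, mem_preimage, mem_Ioi, not_and, not_lt]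
      constructor
      · rintro ⟨h1, h2, h3⟩
        exact ⟨h1, fun _ => h3⟩
      · rintro ⟨h1, h2⟩
        exact ⟨h1, h1.1, h2 h1.1⟩
    rw [hBe]
    exact (hSo k).measurableSet.diff hBo.measurableSet
  have hsplit : {z | z ∈ ball (0 : ℂ) 1 ∧ ee (e k) (φ z) ≤ M} ⊆
      (ball (0 : ℂ) 1 \ S k) ∪ (S k ∩ {z | z ∈ ball (0 : ℂ) 1 ∧ ee (e k) (φ z) ≤ M}) := by
    intro z hz
    by_cases h : z ∈ S k
    · exact Or.inr ⟨h, hz⟩
    · exact Or.inl ⟨hz.1, h⟩
  have b1 : ∫⁻ z in ball (0 : ℂ) 1 \ S k, ENNReal.ofReal ((1 + ee (e k) (φ z)) ^ 4) * cdens φ z ≤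
      ENNReal.ofReal ((1 + δ) ^ 4) * K := by
    calc ∫⁻ z in ball (0 : ℂ) 1 \ S k, ENNReal.ofReal ((1 + ee (e k) (φ z)) ^ 4) * cdens φ z
        ≤ ∫⁻ z in ball (0 : ℂ) 1 \ S k, ENNReal.ofReal ((1 + δ) ^ 4) * cdens φ z := by
          refine setLIntegral_mono' (measurableSet_ball.diff (hSo k).measurableSet) ?_
          intro z hz
          have h1 : ee (e k) (φ z) ≤ δ := by
            by_contra hc
            push Not at hc
            exact hz.2 ⟨hz.1, hc⟩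
          have h2 : 0 ≤ ee (e k) (φ z) := by
            have := hpos z hz.1
            have := he0 k
            unfold ee
            positivity
          gcongr
      _ = ENNReal.ofReal ((1 + δ) ^ 4) * ∫⁻ z in ball (0 : ℂ) 1 \ S k, cdens φ z :=
          lintegral_const_mul' _ _ ENNReal.ofReal_ne_top
      _ ≤ _ := by
          gcongr
          exact lintegral_mono_set diff_subset
  have b2 : ∫⁻ z in S k ∩ {z | z ∈ ball (0 : ℂ) 1 ∧ ee (e k) (φ z) ≤ M},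
      ENNReal.ofReal ((1 + ee (e k) (φ z)) ^ 4) * cdens φ z ≤
      ENNReal.ofReal ((1 + M) ^ 4) * ν (S k) := by
    calc ∫⁻ z in S k ∩ {z | z ∈ ball (0 : ℂ) 1 ∧ ee (e k) (φ z) ≤ M},
          ENNReal.ofReal ((1 + ee (e k) (φ z)) ^ 4) * cdens φ z
        ≤ ∫⁻ z in S k ∩ {z | z ∈ ball (0 : ℂ) 1 ∧ ee (e k) (φ z) ≤ M},
          ENNReal.ofReal ((1 + M) ^ 4) * cdens φ z := by
          refine setLIntegral_mono' hS2 ?_
          intro z hz
          have h1 : ee (e k) (φ z) ≤ M := hz.2.2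
          have h2 : 0 ≤ ee (e k) (φ z) := by
            have := hpos z hz.2.1
            have := he0 k
            unfold ee
            positivity
          gcongr
      _ = ENNReal.ofReal ((1 + M) ^ 4) *
          ∫⁻ z in S k ∩ {z | z ∈ ball (0 : ℂ) 1 ∧ ee (e k) (φ z) ≤ M}, cdens φ z :=
          lintegral_const_mul' _ _ ENNReal.ofReal_ne_top
      _ ≤ _ := by
          rw [hν _ (hSo k).measurableSet]
          gcongr
          exact fun z hz => hz.1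
  calc ∫⁻ z in {z | z ∈ ball (0 : ℂ) 1 ∧ ee (e k) (φ z) ≤ M},
        ENNReal.ofReal ((1 + ee (e k) (φ z)) ^ 4) * cdens φ z
      ≤ ∫⁻ z in (ball (0 : ℂ) 1 \ S k) ∪
          (S k ∩ {z | z ∈ ball (0 : ℂ) 1 ∧ ee (e k) (φ z) ≤ M}),
        ENNReal.ofReal ((1 + ee (e k) (φ z)) ^ 4) * cdens φ z := lintegral_mono_set hsplit
    _ ≤ ENNReal.ofReal ((1 + δ) ^ 4) * K + ENNReal.ofReal ((1 + M) ^ 4) * ν (S k) :=
        (lintegral_union_le _ _ _).trans (add_le_add b1 b2)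
    _ < ENNReal.ofReal ((1 + δ) ^ 4) * K + ENNReal.ofReal (T - (1 + δ) ^ 4 * K.toReal) :=
        ENNReal.add_lt_add_left (ENNReal.mul_ne_top ENNReal.ofReal_ne_top hKt) hk
    _ = ENNReal.ofReal T := by
        conv_lhs => rw [← ENNReal.ofReal_toReal hKt]
        rw [ENNReal.toReal_ofReal ENNReal.toReal_nonneg, ← ENNReal.ofReal_mul (by positivity),
          ← ENNReal.ofReal_add (by have := ENNReal.toReal_nonneg (a := K); positivity)
            (by linarith)]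
        congr 1
        ring

end Pool.Agent.W7h56.WE
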