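import Pool.Agent.W7h56.WE.Fin1

/-!
# The main theorem
-/

set_option autoImplicit false

namespace Pool.Agent.W7h56.WE

open scoped ContDiff RealInnerProductSpace ENNReal Topology
open MeasureTheory Set Metric Pool.Agent.Y503.RB Filter

/-! ### critical points of the norm of `psi ∘ φ` -/

/-- The function `exp (-1/s)²`. -/
noncomputable def gg (s : ℝ) : ℝ := Real.exp (-s⁻¹) ^ 2

theorem gg_deriv {s : ℝ} (hs : 0 < s) :
    deriv gg s = 2 * Real.exp (-s⁻¹) ^ 2 / s ^ 2 := by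
  have h1 : HasDerivAt (fun s : ℝ => -s⁻¹) (-(-(s ^ 2)⁻¹)) s := (hasDerivAt_inv hs.ne').neg
  have h2 := (h1.exp).pow 2
  have h3 : HasDerivAt gg _ s := h2
  rw [h3.deriv]
  simp
  field_simp

theorem gg_smooth {s : ℝ} (hs : 0 < s) : ContDiffAt ℝ ∞ gg s := by
  unfold gg
  exact ((contDiffAt_inv ℝ hs.ne').neg.exp).pow 2

theorem XX_lin_left (φ : ℂ → E4) (ε : ℝ) (w : E4) (a b : ℝ) (v z : ℂ) :
    XX φ ε w (a + b * Complex.I) v z = a * XX φ ε w 1 v z + b * XX φ ε w Complex.I v z := by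
  unfold XX sff fff
  rw [d1_lin, d2_lin_left]
  simp only [inner_add_right, inner_add_left, inner_smul_right, inner_smul_left, conj_trivial]
  ring

theorem XX_quad {φ : ℂ → E4} {ε : ℝ} {w : E4} {z : ℂ} (h : ContDiffAt ℝ ∞ φ z) (a b : ℝ) :
    XX φ ε w (a + b * Complex.I) (a + b * Complex.I) z =
      a ^ 2 * XX φ ε w 1 1 z + 2 * a * b * XX φ ε w 1 Complex.I z +
        b ^ 2 * XX φ ε w Complex.I Complex.I z := by
  rw [XX_lin_left, XX_symm h 1, XX_symm h Complex.I, XX_lin_left, XX_lin_left,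
    XX_symm h Complex.I 1]
  ring

theorem nondegX {φ : ℂ → E4} {ε : ℝ} {w : E4} {z : ℂ} (hsm : ContDiffAt ℝ ∞ φ z)
    (hdet : XDet φ ε w z ≠ 0) {u : ℂ} (h0 : ∀ v : ℂ, XX φ ε w u v z = 0) : u = 0 := by
  have hu : u = (u.re : ℂ) + (u.im : ℂ) * Complex.I := (Complex.re_add_im u).symm
  have h1 : u.re * XX φ ε w 1 1 z + u.im * XX φ ε w Complex.I 1 z = 0 := by
    rw [← XX_lin_left, ← hu]
    exact h0 1
  have h2 : u.re * XX φ ε w 1 Complex.I z + u.im * XX φ ε w Complex.I Complex.I z = 0 := by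
    rw [← XX_lin_left, ← hu]
    exact h0 Complex.I
  rw [XX_symm hsm Complex.I 1] at h1
  unfold XDet at hdet
  have h3 : u.re * (XX φ ε w 1 1 z * XX φ ε w Complex.I Complex.I z -
      XX φ ε w 1 Complex.I z ^ 2) = 0 := by
    linear_combination (XX φ ε w Complex.I Complex.I z) * h1 - (XX φ ε w 1 Complex.I z) * h2
  have h4 : u.im * (XX φ ε w 1 1 z * XX φ ε w Complex.I Complex.I z -
      XX φ ε w 1 Complex.I z ^ 2) = 0 := by
    linear_combination (XX φ ε w 1 1 z) * h2 - (XX φ ε w 1 Complex.I z) * h1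
  apply Complex.ext
  · exact (mul_eq_zero.mp h3).resolve_right hdet
  · exact (mul_eq_zero.mp h4).resolve_right hdet

/-- Critical points of the squared norm of `psi ∘ φ`. -/
theorem critX {φ : ℂ → E4} {U : Set ℂ} (hP : Patch φ U) {p q : E4} {ε : ℝ} (hp : ‖p‖ < 1)
    (hε : 0 < ε) (hq : ‖q‖ < 1) {z : ℂ} (hz : z ∈ U) (hne : φ z ≠ q)
    (hc : fderiv ℝ (fun w => ‖psi p q ε (φ w)‖ ^ 2) z = 0) :
    (∀ v : ℂ, ⟪p - ee ε (φ z) • φ z, d1 φ v z⟫ = 0) ∧
    (∃ κ : ℝ, 0 < κ ∧ ∀ u v : ℂ,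
        fderiv ℝ (fderiv ℝ (fun w => ‖psi p q ε (φ w)‖ ^ 2)) z u v =
          -κ * XX φ ε (p - ee ε (φ z) • φ z) u v z) ∧
    (IsLocalMax (fun w => ‖psi p q ε (φ w)‖ ^ 2) z →
      XDet φ ε (p - ee ε (φ z) • φ z) z ≠ 0 →
      0 < XX φ ε (p - ee ε (φ z) • φ z) 1 1 z ∧ 0 < XDet φ ε (p - ee ε (φ z) • φ z) z) := by
  have hU := hP.isOpen.mem_nhds hz
  have cφ : ContDiffAt ℝ ∞ φ z := hP.smooth.contDiffAt hU
  have dφ : DifferentiableAt ℝ φ z := cφ.differentiableAt (by simp)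
  have hin := hP.inside z hz
  have hX : 0 < 1 - ‖φ z‖ ^ 2 := by nlinarith [norm_nonneg (φ z)]
  have cF : ContDiffAt ℝ ∞ (fun w => FF p ε (φ w)) z := by
    unfold FF
    refine (contDiffAt_const.sub (contDiffAt_const.mul (cφ.inner ℝ contDiffAt_const))).add ?_
    exact contDiffAt_const.div (contDiffAt_const.sub (cφ.norm_sq ℝ)) hX.ne'
  have hF0 := FF_pos (p := p) hp hε hin
  have hev : (fun w => ‖psi p q ε (φ w)‖ ^ 2) =ᶠ[𝓝 z] fun w => gg (FF p ε (φ w)) := by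
    have h1 : ∀ᶠ w in 𝓝 z, φ w ≠ q := cφ.continuousAt.eventually_ne hne
    filter_upwards [h1, hU] with w hw hwU
    rw [psi_norm hq hw, QQ_eq (hP.inside w hwU)]
    rfl
  have hgd : 0 < deriv gg (FF p ε (φ z)) := by
    rw [gg_deriv hF0]
    positivity
  obtain ⟨e1, e2⟩ := comp_crit cF (gg_smooth hF0) hgd.ne'
  have hc' : fderiv ℝ (fun w => FF p ε (φ w)) z = 0 := by
    rw [← e1, ← hev.fderiv_eq]
    exact hc
  have hn : ∀ v : ℂ, ⟪p - ee ε (φ z) • φ z, d1 φ v z⟫ = 0 := by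
    intro v
    have h1 := FF_fderiv (p := p) (ε := ε) dφ hin v
    rw [hc'] at h1
    have h2 : ⟪p - ee ε (φ z) • φ z, d1 φ v z⟫ = -⟪ee ε (φ z) • φ z - p, d1 φ v z⟫ := by
      rw [← inner_neg_left, neg_sub]
    rw [h2]
    simp at h1
    rw [h1, neg_zero]
  refine ⟨hn, ⟨2 * deriv gg (FF p ε (φ z)), by positivity, ?_⟩, ?_⟩
  · intro u v
    have h1 : fderiv ℝ (fun w => ‖psi p q ε (φ w)‖ ^ 2) =ᶠ[𝓝 z]
        fderiv ℝ (fun w => gg (FF p ε (φ w))) := hev.fderiv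
    rw [h1.fderiv_eq, e2 hc' u v, FF_hess hP hz]
    ring
  · intro hmax hdet
    have hmin : IsLocalMin (fun w => -FF p ε (φ w)) z := by
      have h1 : ∀ᶠ w in 𝓝 z, gg (FF p ε (φ w)) ≤ gg (FF p ε (φ z)) := by
        have h2 : ∀ᶠ w in 𝓝 z, ‖psi p q ε (φ w)‖ ^ 2 ≤ ‖psi p q ε (φ z)‖ ^ 2 := hmax
        have h3 : ‖psi p q ε (φ z)‖ ^ 2 = gg (FF p ε (φ z)) := hev.self_of_nhds
        filter_upwards [h2, hev] with w hw hw'
        rw [← hw', ← h3]
        exact hw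
      have h4 : ∀ᶠ w in 𝓝 z, 0 < FF p ε (φ w) := by
        filter_upwards [hU] with w hw
        exact FF_pos hp hε (hP.inside w hw)
      show ∀ᶠ w in 𝓝 z, -FF p ε (φ z) ≤ -FF p ε (φ w)
      filter_upwards [h1, h4] with w hw hw0
      unfold gg at hw
      have h5 : Real.exp (-(FF p ε (φ w))⁻¹) ≤ Real.exp (-(FF p ε (φ z))⁻¹) :=
        (pow_le_pow_iff_left₀ (Real.exp_pos _).le (Real.exp_pos _).le two_ne_zero).1 hw
      have h6 := Real.exp_le_exp.1 h5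
      have h7 : (FF p ε (φ z))⁻¹ ≤ (FF p ε (φ w))⁻¹ := by linarith
      have h8 := (inv_le_inv₀ hF0 hw0).mp h7
      linarith
    have hso := Pool.Agent.Y640.RB.soc (fun w => -FF p ε (φ w)) z cF.neg hmin
    refine inner_of_semidef (e := XX φ ε (p - ee ε (φ z) • φ z) 1 1 z)
      (f := XX φ ε (p - ee ε (φ z) • φ z) 1 Complex.I z)
      (g := XX φ ε (p - ee ε (φ z) • φ z) Complex.I Complex.I z) ?_ hdet
    intro a b
    have h1 := hso (a + b * Complex.I)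
    have h2 : fderiv ℝ (fun w => -FF p ε (φ w)) = fun y => -fderiv ℝ (fun w => FF p ε (φ w)) y := by
      funext y
      exact fderiv_fun_neg
    rw [h2, fderiv_fun_neg, neg_apply, neg_apply, FF_hess hP hz, XX_quad cφ] at h1
    linarith

/-- The image of the disc under `psi`. -/
theorem slice_psi {p q : E4} {ε : ℝ} (hp : ‖p‖ < 1) (hε : 0 < ε) (hq : ‖q‖ < 1)
    (hpq : p = ee ε q • q) {φ : ℂ → E4} (h : SliceDisc φ)
    (hne : ∀ z ∈ closedBall (0 : ℂ) 1, φ z ≠ q) :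
    SliceDisc (fun w => psi p q ε (φ w)) := by
  obtain ⟨W, hW, hsub, hs⟩ := h.smooth
  have hle : ∀ z ∈ closedBall (0 : ℂ) 1, ‖φ z‖ ≤ 1 := by
    intro z hz
    rcases (mem_closedBall_zero_iff.mp hz).lt_or_eq with h1 | h1
    · exact (h.inside z (mem_ball_zero_iff.mpr h1)).le
    · exact (h.bdry z (mem_sphere_zero_iff_norm.mpr h1)).le
  have hO : IsOpen {x : E4 | x ≠ q ∧ DD p ε x ≠ 0} := by
    have h1 : Continuous (DD p ε) := by
      unfold DD
      fun_prop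
    exact isOpen_ne.inter (isOpen_compl_singleton.preimage h1)
  have hat : ∀ z ∈ closedBall (0 : ℂ) 1, ContDiffAt ℝ ∞ φ z := fun z hz =>
    hs.contDiffAt (hW.mem_nhds (hsub hz))
  have hpsi : ∀ z ∈ closedBall (0 : ℂ) 1, ContDiffAt ℝ ∞ (psi p q ε) (φ z) := fun z hz =>
    psi_smooth hq (hne z hz) (DD_pos hp hε (hle z hz)).ne'
  refine ⟨⟨W ∩ φ ⁻¹' {x : E4 | x ≠ q ∧ DD p ε x ≠ 0},
    hs.continuousOn.isOpen_inter_preimage hW hO, ?_, ?_⟩, ?_, ?_, ?_, ?_, ?_⟩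
  · intro z hz
    exact ⟨hsub hz, hne z hz, (DD_pos hp hε (hle z hz)).ne'⟩
  · intro z hz
    exact ((psi_smooth hq hz.2.1 hz.2.2).comp z
      (hs.contDiffAt (hW.mem_nhds hz.1))).contDiffWithinAt
  · intro a ha b hb hab
    exact h.inj ha hb (psi_inj hp hε hq hpq (hle a ha) (hle b hb) (hne a ha) (hne b hb) hab)
  · intro z hz
    have e1 : fderiv ℝ (fun w => psi p q ε (φ w)) z =
        (fderiv ℝ (psi p q ε) (φ z)).comp (fderiv ℝ φ z) :=
      fderiv_comp z ((hpsi z hz).differentiableAt (by simp)) ((hat z hz).differentiableAt (by simp))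
    rw [e1]
    exact (psi_imm hp hε hq hpq (hle z hz) (hne z hz)).comp (h.imm z hz)
  · intro z hz
    show ‖psi p q ε (φ z)‖ < 1
    have hz' := ball_subset_closedBall hz
    rw [psi_norm hq (hne z hz'), Real.exp_lt_one_iff]
    have := QQ_pos (p := p) hp hε (h.inside z hz)
    linarith
  · intro z hz
    show ‖psi p q ε (φ z)‖ = 1
    rw [psi_sphere hq (h.bdry z hz)]
    exact h.bdry z hz
  · intro z hz
    have hz' := sphere_subset_closedBall hz
    have hb := h.bdry z hz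
    have dφ : DifferentiableAt ℝ φ z := (hat z hz').differentiableAt (by simp)
    have hD := (DD_pos hp hε (hle z hz')).ne'
    have hev : (fun w => ‖psi p q ε (φ w)‖ ^ 2) =ᶠ[𝓝 z]
        fun w => Real.exp (-QQ p ε (φ w)) * Real.exp (-QQ p ε (φ w)) := by
      have h1 : ∀ᶠ w in 𝓝 z, φ w ≠ q := dφ.continuousAt.eventually_ne (hne z hz')
      filter_upwards [h1] with w hw
      rw [psi_norm hq hw, sq]
    rw [hev.fderiv_eq]
    have h1 : HasFDerivAt (fun w => QQ p ε (φ w)) ((fderiv ℝ (QQ p ε) (φ z)).comp (fderiv ℝ φ z)) z :=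
      (((QQ_smooth hD).differentiableAt (by simp)).hasFDerivAt).comp z dφ.hasFDerivAt
    have h2 := h1.neg.exp
    have h3 : HasFDerivAt (fun w => Real.exp (-QQ p ε (φ w)) * Real.exp (-QQ p ε (φ w))) _ z :=
      h2.mul h2
    rw [h3.fderiv]
    have h4 := h.trans z hz
    rw [(hasFDerivAt_nsq dφ).fderiv] at h4
    have h5 : (0 : ℝ) < 2 * ⟪φ z, fderiv ℝ φ z z⟫ := by simpa using h4
    have h6 : QQ p ε (φ z) = 0 := QQ_sphere hb
    have h7 := QQ_fderiv hD (fderiv ℝ φ z z)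
    rw [hb] at h7
    have h8 : fderiv ℝ (QQ p ε) (φ z) (fderiv ℝ φ z z) < 0 := by
      rw [h7]
      have : 0 < 2 / DD p ε (φ z) ^ 2 := by positivity
      have : 0 < ε * ⟪φ z, fderiv ℝ φ z z⟫ := mul_pos hε (by linarith)
      have : 0 < 2 / DD p ε (φ z) ^ 2 * (ε * ⟪φ z, fderiv ℝ φ z z⟫) := by positivity
      simp only [one_pow, sub_self, ne_eq, OfNat.ofNat_ne_zero, not_false_eq_true, zero_pow,
        zero_mul, sub_zero]
      linarith
    simp [h6]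
    linarith

end Pool.Agent.W7h56.WE
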