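import Pool.Agent.W7h56.WE.Crit
import Pool.Agent.Y421.RB.Det
import Pool.Agent.Y475.RB.Jac
import Pool.Agent.Y977.RB.NFT

/-!
# The map whose values are the linear functions with a critical point
-/

set_option autoImplicit false

namespace Pool.Agent.W7h56.WE

open scoped ContDiff RealInnerProductSpace ENNReal Topology
open MeasureTheory Set Metric Pool.Agent.Y503.RB Filter

/-- The map `(z, w) ↦ ee φ(z) + w₁ N₁(z) + w₂ N₂(z)`. -/
noncomputable def emap (φ N₁ N₂ : ℂ → E4) (ε : ℝ) (x : E4) : E4 :=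
  ee ε (φ (zc x)) • φ (zc x) + (x 2 • N₁ (zc x) + x 3 • N₂ (zc x))

/-- The normal vector with coordinates `x 2`, `x 3`. -/
noncomputable def nv (N₁ N₂ : ℂ → E4) (x : E4) : E4 := x 2 • N₁ (zc x) + x 3 • N₂ (zc x)

open Pool.Agent.Y977.RB (zcL zcL_apply)

theorem hasFDerivAt_zc (x : E4) : HasFDerivAt zc zcL x := by
  have e : zc = fun x : E4 => zcL x := funext fun x => (zcL_apply x).symm
  rw [e]
  exact zcL.hasFDerivAt

theorem zc_smooth (x : E4) : ContDiffAt ℝ ∞ zc x := by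
  have e : zc = fun x : E4 => zcL x := funext fun x => (zcL_apply x).symm
  rw [e]
  exact zcL.contDiff.contDiffAt

theorem coord_smooth (i : Fin 4) (x : E4) : ContDiffAt ℝ ∞ (fun x : E4 => x i) x :=
  (EuclideanSpace.proj (𝕜 := ℝ) i : E4 →L[ℝ] ℝ).contDiff.contDiffAt

theorem hasFDerivAt_coord (i : Fin 4) (x : E4) :
    HasFDerivAt (fun x : E4 => x i) (EuclideanSpace.proj (𝕜 := ℝ) i : E4 →L[ℝ] ℝ) x :=
  (EuclideanSpace.proj (𝕜 := ℝ) i : E4 →L[ℝ] ℝ).hasFDerivAt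

theorem comp_zc_smooth {f : ℂ → E4} {x : E4} (h : ContDiffAt ℝ ∞ f (zc x)) :
    ContDiffAt ℝ ∞ (fun x => f (zc x)) x := h.comp x (zc_smooth x)

theorem emap_smooth {φ N₁ N₂ : ℂ → E4} {U : Set ℂ} (hP : Patch φ U) (hF : Frame φ N₁ N₂ U)
    {ε : ℝ} {x : E4} (hx : zc x ∈ U) : ContDiffAt ℝ ∞ (emap φ N₁ N₂ ε) x := by
  have hU := hP.isOpen.mem_nhds hx
  have c0 := comp_zc_smooth (hP.smooth.contDiffAt hU)
  have c1 := comp_zc_smooth (hF.smooth₁.contDiffAt hU)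
  have c2 := comp_zc_smooth (hF.smooth₂.contDiffAt hU)
  have h1 := hP.inside _ hx
  have hX : 0 < 1 - ‖φ (zc x)‖ ^ 2 := by nlinarith [norm_nonneg (φ (zc x))]
  have h2 : ContDiffAt ℝ ∞ (fun x => ee ε (φ (zc x))) x := by
    unfold ee
    exact contDiffAt_const.div ((contDiffAt_const.sub (c0.norm_sq ℝ)).pow 2) (by positivity)
  have h3 := (h2.smul c0).add (((coord_smooth 2 x).smul c1).add ((coord_smooth 3 x).smul c2))
  exact h3

theorem emap_fderiv {φ N₁ N₂ : ℂ → E4} {U : Set ℂ} (hP : Patch φ U) (hF : Frame φ N₁ N₂ U)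
    {ε : ℝ} {x : E4} (hx : zc x ∈ U) (y : E4) :
    fderiv ℝ (emap φ N₁ N₂ ε) x y =
      ee ε (φ (zc x)) • d1 φ (zc y) (zc x) +
        (kk ε (φ (zc x)) * ⟪φ (zc x), d1 φ (zc y) (zc x)⟫) • φ (zc x) +
      (x 2 • fderiv ℝ N₁ (zc x) (zc y) + y 2 • N₁ (zc x) +
        (x 3 • fderiv ℝ N₂ (zc x) (zc y) + y 3 • N₂ (zc x))) := by
  have hU := hP.isOpen.mem_nhds hx
  have dφ : DifferentiableAt ℝ φ (zc x) := (hP.smooth.contDiffAt hU).differentiableAt (by simp)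
  have dN1 : DifferentiableAt ℝ N₁ (zc x) := (hF.smooth₁.contDiffAt hU).differentiableAt (by simp)
  have dN2 : DifferentiableAt ℝ N₂ (zc x) := (hF.smooth₂.contDiffAt hU).differentiableAt (by simp)
  have h1 := hP.inside _ hx
  have hz := hasFDerivAt_zc x
  have g0 := ((ee_fderiv (ε := ε) dφ h1).smul dφ.hasFDerivAt).comp x hz
  have g1 := (hasFDerivAt_coord 2 x).smul (dN1.hasFDerivAt.comp x hz)
  have g2 := (hasFDerivAt_coord 3 x).smul (dN2.hasFDerivAt.comp x hz)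
  have g3 := g0.add (g1.add g2)
  have e : emap φ N₁ N₂ ε = ((fun w => ee ε (φ w) • φ w) ∘ zc) +
      (((fun x : E4 => x 2) • (N₁ ∘ zc)) + ((fun x : E4 => x 3) • (N₂ ∘ zc))) := rfl
  rw [e]
  refine (congrArg (fun L : E4 →L[ℝ] E4 => L y) g3.fderiv).trans ?_
  simp [d1, zcL_apply]

theorem det4b (a b c d e f g h : ℝ) :
    (!![a, b, 0, 0; c, d, 0, 0; e, f, 1, 0; g, h, 0, 1] : Matrix (Fin 4) (Fin 4) ℝ).det =
      a * d - b * c := by
  simp [Matrix.det_succ_row_zero, Fin.sum_univ_succ, Matrix.submatrix_apply, Fin.succAbove]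
  ring

theorem zc_single0 : zc (EuclideanSpace.single (0 : Fin 4) (1 : ℝ)) = 1 := by
  apply Complex.ext <;> simp [zc]

theorem zc_single1 : zc (EuclideanSpace.single (1 : Fin 4) (1 : ℝ)) = Complex.I := by
  apply Complex.ext <;> simp [zc]

theorem zc_single2 : zc (EuclideanSpace.single (2 : Fin 4) (1 : ℝ)) = 0 := by
  apply Complex.ext <;> simp [zc]

theorem zc_single3 : zc (EuclideanSpace.single (3 : Fin 4) (1 : ℝ)) = 0 := by
  apply Complex.ext <;> simp [zc]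

theorem XX_symm {φ : ℂ → E4} {ε : ℝ} {w : E4} {z : ℂ} (h : ContDiffAt ℝ ∞ φ z) (u v : ℂ) :
    XX φ ε w u v z = XX φ ε w v u z := by
  unfold XX sff fff
  rw [Pool.Agent.Y640.RB.sym φ z h u v, real_inner_comm (d1 φ v z)]
  ring

/-- The tangential part of the derivative of `emap`. -/
theorem emap_tan {φ N₁ N₂ : ℂ → E4} {U : Set ℂ} (hP : Patch φ U) (hF : Frame φ N₁ N₂ U)
    {ε : ℝ} {x : E4} (hx : zc x ∈ U) (y : E4) (v : ℂ) :
    ⟪d1 φ v (zc x), fderiv ℝ (emap φ N₁ N₂ ε) x y⟫ = -XX φ ε (nv N₁ N₂ x) (zc y) v (zc x) := by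
  have hU := hP.isOpen.mem_nhds hx
  have cφ := hP.smooth.contDiffAt hU
  have dN1 : DifferentiableAt ℝ N₁ (zc x) := (hF.smooth₁.contDiffAt hU).differentiableAt (by simp)
  have dN2 : DifferentiableAt ℝ N₂ (zc x) := (hF.smooth₂.contDiffAt hU).differentiableAt (by simp)
  have ddφ : ∀ u : ℂ, DifferentiableAt ℝ (fun w => fderiv ℝ φ w u) (zc x) := by
    intro u
    have h1 : ContDiffAt ℝ 1 (fderiv ℝ φ) (zc x) := cφ.fderiv_right (by norm_cast)
    exact (h1.differentiableAt (by simp)).clm_apply (differentiableAt_const u)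
  have p1 : ⟪N₁ (zc x), d2 φ (zc y) v (zc x)⟫ + ⟪fderiv ℝ N₁ (zc x) (zc y), d1 φ v (zc x)⟫ = 0 :=
    Pool.Agent.Y692.RB.inner_const hP.isOpen hx dN1 (ddφ v) (fun w hw => hF.norm₁ w hw v) (zc y)
  have p2 : ⟪N₂ (zc x), d2 φ (zc y) v (zc x)⟫ + ⟪fderiv ℝ N₂ (zc x) (zc y), d1 φ v (zc x)⟫ = 0 :=
    Pool.Agent.Y692.RB.inner_const hP.isOpen hx dN2 (ddφ v) (fun w hw => hF.norm₂ w hw v) (zc y)
  have q1 : ⟪d1 φ v (zc x), N₁ (zc x)⟫ = 0 := by
    rw [real_inner_comm]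
    exact hF.norm₁ _ hx v
  have q2 : ⟪d1 φ v (zc x), N₂ (zc x)⟫ = 0 := by
    rw [real_inner_comm]
    exact hF.norm₂ _ hx v
  rw [emap_fderiv hP hF hx]
  simp only [inner_add_right, inner_smul_right, q1, q2]
  rw [real_inner_comm (fderiv ℝ N₁ (zc x) (zc y)), real_inner_comm (fderiv ℝ N₂ (zc x) (zc y)),
    real_inner_comm (φ (zc x)) (d1 φ v (zc x)),
    real_inner_comm (d1 φ (zc y) (zc x)) (d1 φ v (zc x))]
  unfold XX sff fff nv
  simp only [inner_add_left, inner_smul_left, conj_trivial]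
  linear_combination (x 2) * p1 + (x 3) * p2

/-- The Jacobian determinant of `emap`. -/
theorem emap_det {φ N₁ N₂ : ℂ → E4} {U : Set ℂ} (hP : Patch φ U) (hF : Frame φ N₁ N₂ U)
    {ε : ℝ} {x : E4} (hx : zc x ∈ U) :
    |(fderiv ℝ (emap φ N₁ N₂ ε) x).det| =
      |XDet φ ε (nv N₁ N₂ x) (zc x)| / √(fffDet φ (zc x)) := by
  have hU := hP.isOpen.mem_nhds hx
  have cφ := hP.smooth.contDiffAt hU
  have hpos := Pool.Agent.Y421.RB.fffDet_pos (hP.imm _ hx)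
  rw [Pool.Agent.Y421.RB.det_eq]
  set A := fderiv ℝ (emap φ N₁ N₂ ε) x with hA
  have a2 : A (EuclideanSpace.single 2 1) = N₁ (zc x) := by
    rw [hA, emap_fderiv hP hF hx, zc_single2]
    simp [d1]
  have a3 : A (EuclideanSpace.single 3 1) = N₂ (zc x) := by
    rw [hA, emap_fderiv hP hF hx, zc_single3]
    simp [d1]
  have t00 := emap_tan hP hF (ε := ε) hx (EuclideanSpace.single 0 1) 1
  have t01 := emap_tan hP hF (ε := ε) hx (EuclideanSpace.single 0 1) Complex.I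
  have t10 := emap_tan hP hF (ε := ε) hx (EuclideanSpace.single 1 1) 1
  have t11 := emap_tan hP hF (ε := ε) hx (EuclideanSpace.single 1 1) Complex.I
  rw [← hA] at t00 t01 t10 t11
  rw [zc_single0] at t00 t01
  rw [zc_single1] at t10 t11
  rw [XX_symm cφ Complex.I 1] at t10
  have n1 : ∀ v : ℂ, ⟪N₁ (zc x), d1 φ v (zc x)⟫ = 0 := fun v => hF.norm₁ _ hx v
  have n2 : ∀ v : ℂ, ⟪N₂ (zc x), d1 φ v (zc x)⟫ = 0 := fun v => hF.norm₂ _ hx v
  have n1' : ∀ v : ℂ, ⟪d1 φ v (zc x), N₁ (zc x)⟫ = 0 := fun v => by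
    rw [real_inner_comm]; exact n1 v
  have n2' : ∀ v : ℂ, ⟪d1 φ v (zc x), N₂ (zc x)⟫ = 0 := fun v => by
    rw [real_inner_comm]; exact n2 v
  have i11 : ⟪N₁ (zc x), N₁ (zc x)⟫ = 1 := Pool.Agent.Y692.RB.inner_self_one (hF.unit₁ _ hx)
  have i22 : ⟪N₂ (zc x), N₂ (zc x)⟫ = 1 := Pool.Agent.Y692.RB.inner_self_one (hF.unit₂ _ hx)
  have i12 : ⟪N₁ (zc x), N₂ (zc x)⟫ = 0 := hF.orth _ hx
  have i21 : ⟪N₂ (zc x), N₁ (zc x)⟫ = 0 := by rw [real_inner_comm]; exact i12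
  rw [a2, a3]
  set B := cols (d1 φ 1 (zc x)) (d1 φ Complex.I (zc x)) (N₁ (zc x)) (N₂ (zc x)) with hB
  set M := cols (A (EuclideanSpace.single 0 1)) (A (EuclideanSpace.single 1 1)) (N₁ (zc x))
    (N₂ (zc x)) with hM
  have h1 : B.det * M.det = XDet φ ε (nv N₁ N₂ x) (zc x) := by
    rw [← Matrix.det_transpose B, ← Matrix.det_mul, hB, hM, Pool.Agent.Y475.RB.gram, t00, t01, t10,
      t11, n1', n1', n2', n2', i11, i22, i12, i21, det4b]
    unfold XDet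
    ring
  have h2 : B.det ^ 2 = fffDet φ (zc x) := by
    have e0 : B.det ^ 2 = (B.transpose * B).det := by
      rw [Matrix.det_mul, Matrix.det_transpose, sq]
    rw [e0, hB, Pool.Agent.Y475.RB.gram, n1', n1', n2', n2', n1, n1, n2, n2, i11, i22, i12, i21,
      det4b, real_inner_comm (d1 φ 1 (zc x)) (d1 φ Complex.I (zc x))]
    unfold fffDet fff
    ring
  have h3 : |B.det| = √(fffDet φ (zc x)) := by
    rw [← h2, Real.sqrt_sq_eq_abs]
  rw [← h1, abs_mul, h3]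
  have h4 : 0 < √(fffDet φ (zc x)) := Real.sqrt_pos.mpr hpos
  field_simp

end Pool.Agent.W7h56.WE
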