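import Pool.Agent.W7h56.WE.Fin2

/-!
# The main theorem
-/

set_option autoImplicit false

namespace Pool.Agent.W7h56.WE

open scoped ContDiff RealInnerProductSpace ENNReal Topology
open MeasureTheory Set Metric Pool.Agent.Y503.RB Filter

/-- A slice disc of small total curvature. -/
theorem disc {φ : ℂ → E4} (h : SliceDisc φ) (m : ℕ)
    (hK : ∫⁻ z in ball (0 : ℂ) 1, cdens φ z < ENNReal.ofReal (Real.pi ^ 2 / 2 * (m + 1))) :
    ∃ (q : E4) (Ψ : E4 → E4), ‖q‖ < 1 ∧ (∀ z ∈ closedBall (0 : ℂ) 1, φ z ≠ q) ∧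
      (∀ x ∈ closedBall (0 : E4) 1 \ {q}, ContDiffAt ℝ ∞ Ψ x) ∧
      InjOn Ψ (closedBall (0 : E4) 1 \ {q}) ∧
      (∀ x ∈ closedBall (0 : E4) 1 \ {q}, Function.Injective (fderiv ℝ Ψ x)) ∧
      (∀ x ∈ ball (0 : E4) 1 \ {q}, ‖Ψ x‖ < 1) ∧
      (∀ x ∈ sphere (0 : E4) 1, Ψ x = x) ∧
      SliceDisc (fun w => Ψ (φ w)) ∧ MorseDisc (fun w => Ψ (φ w)) m := by
  obtain ⟨M, hM0, hM⟩ := exists_M h
  obtain ⟨ε, hε, hε1, hT⟩ := exists_eps h.patch hM0 hK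
  obtain ⟨W, hW, hsub, hs⟩ := h.smooth
  obtain ⟨p, hp0, hp1, hpZ, hreg, hcnt⟩ := core3 h.patch hε (hM ε hε hε1) _
    (Pool.Agent.Y977.RB.null φ W hW hs) m hT
  obtain ⟨q, hq, hpq, t, ht⟩ := exists_min (norm_pos_iff.mp hp0) hp1 hε
  have hne : ∀ z ∈ W, φ z ≠ q := fun z hz he => hpZ ⟨t, z, hz, by rw [he, ht]⟩
  have hle : ∀ x : E4, x ∈ closedBall (0 : E4) 1 \ {q} → ‖x‖ ≤ 1 ∧ x ≠ q := fun x hx =>
    ⟨by simpa using hx.1, fun h => hx.2 (by rw [h]; rfl)⟩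
  refine ⟨q, psi p q ε, hq, fun z hz => hne z (hsub hz), ?_, ?_, ?_, ?_, ?_,
    slice_psi hp1 hε hq hpq h (fun z hz => hne z (hsub hz)), ?_, ?_⟩
  · intro x hx
    obtain ⟨h1, h2⟩ := hle x hx
    exact psi_smooth hq h2 (DD_pos hp1 hε h1).ne'
  · intro x hx y hy hxy
    obtain ⟨h1, h2⟩ := hle x hx
    obtain ⟨h3, h4⟩ := hle y hy
    exact psi_inj hp1 hε hq hpq h1 h3 h2 h4 hxy
  · intro x hx
    obtain ⟨h1, h2⟩ := hle x hx
    exact psi_imm hp1 hε hq hpq h1 h2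
  · intro x hx
    have h1 : ‖x‖ < 1 := by simpa using hx.1
    have h2 : x ≠ q := fun h => hx.2 (by rw [h]; rfl)
    rw [psi_norm hq h2, Real.exp_lt_one_iff]
    have := QQ_pos (p := p) hp1 hε h1
    linarith
  · intro x hx
    exact psi_sphere hq (by simpa using hx)
  · intro z hz hc u hu
    have hz' := hsub (ball_subset_closedBall hz)
    obtain ⟨h1, ⟨κ, hκ, h2⟩, -⟩ := critX h.patch hp1 hε hq hz (hne z hz') hc
    refine nondegX (hs.contDiffAt (hW.mem_nhds hz')) (hreg z hz h1) (fun v => ?_)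
    have h3 := hu v
    rw [h2 u v] at h3
    exact (mul_eq_zero.mp h3).resolve_left (neg_ne_zero.mpr hκ.ne')
  · refine encard_le_of_finset fun s hs' => hcnt s fun z hz => ?_
    obtain ⟨hz1, hz2⟩ := hs' z hz
    have hz' := hsub (ball_subset_closedBall hz1)
    have hc : fderiv ℝ (fun w => ‖psi p q ε (φ w)‖ ^ 2) z = 0 := hz2.fderiv_eq_zero
    obtain ⟨h1, -, h2⟩ := critX h.patch hp1 hε hq hz1 (hne z hz') hc
    obtain ⟨h3, h4⟩ := h2 hz2 (hreg z hz1 h1)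
    exact ⟨hz1, h1, h3, h4⟩

end Pool.Agent.W7h56.WE
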