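import Pool.Agent.W7h56.WE.Alg
import Pool.Agent.Y919.RB.FUB

/-!
# Coordinates, scaling, the second moment of a half disc
-/

set_option autoImplicit false

namespace Pool.Agent.W7h56.WE

open scoped ContDiff RealInnerProductSpace ENNReal Topology
open MeasureTheory Set Metric Pool.Agent.Y503.RB Filter

/-- The last two coordinates as a complex number. -/
noncomputable def wc (x : E4) : ℂ := ⟨x 2, x 3⟩

/-- The coordinates. -/
noncomputable def co : E4 ≃ᵐ ℂ × ℂ :=
  Pool.Agent.Y919.RB.coE.trans ((MeasurableEquiv.prodAssoc (α := ℝ) (β := ℝ) (γ := ℂ)).symm.trans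
    ((MeasurableEquiv.prodCongr (MeasurableEquiv.prodComm.trans
      Complex.measurableEquivRealProd.symm) (MeasurableEquiv.refl ℂ)).trans
      MeasurableEquiv.prodComm))

theorem co_apply (x : E4) : co x = (zc x, wc x) := by
  unfold co
  simp only [MeasurableEquiv.trans_apply]
  rw [Pool.Agent.Y919.RB.coE_apply]
  rfl

theorem co_mp : MeasurePreserving co (volume : Measure E4) volume := by
  have h0 := Pool.Agent.Y919.RB.coE_mp
  have h1 : MeasurePreserving (MeasurableEquiv.prodAssoc (α := ℝ) (β := ℝ) (γ := ℂ)).symm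
      volume volume := (volume_preserving_prodAssoc (α₁ := ℝ) (β₁ := ℝ) (γ₁ := ℂ)).symm
  have h2 : MeasurePreserving (Prod.swap : ℝ × ℝ → ℝ × ℝ) volume volume :=
    Measure.measurePreserving_swap
  have h3 := Complex.volume_preserving_equiv_real_prod.symm
  have h4 : MeasurePreserving (Prod.map (Complex.measurableEquivRealProd.symm ∘ Prod.swap)
      (id : ℂ → ℂ)) (volume.prod volume) (volume.prod volume) :=
    (h3.comp h2).prod (MeasurePreserving.id volume)
  have h5 : MeasurePreserving (Prod.swap : ℂ × ℂ → ℂ × ℂ) volume volume :=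
    Measure.measurePreserving_swap
  exact h5.comp (h4.comp (h1.comp h0))

/-- Scaling of a homogeneous function of degree two. -/
theorem scale (f : ℂ → ℝ≥0∞) {s : ℝ} (hs : 0 < s)
    (hf : ∀ w, f (s • w) = ENNReal.ofReal (s ^ 2) * f w) :
    ∫⁻ w in ball (0 : ℂ) s, f w = ENNReal.ofReal (s ^ 4) * ∫⁻ w in ball (0 : ℂ) 1, f w := by
  have h1 : (volume : Measure ℂ).map (s • ·) = ENNReal.ofReal |(s ^ 2)⁻¹| • volume := by
    have := Measure.map_addHaar_smul (volume : Measure ℂ) hs.ne'
    rwa [Complex.finrank_real_complex] at this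
  have he : MeasurableEmbedding (fun w : ℂ => s • w) :=
    (Homeomorph.smulOfNeZero s hs.ne').measurableEmbedding
  have h2 : ∫⁻ w in ball (0 : ℂ) 1, f (s • w) =
      ENNReal.ofReal |(s ^ 2)⁻¹| * ∫⁻ w in ball (0 : ℂ) s, f w := by
    have h3 : (fun w : ℂ => s • w) ⁻¹' ball (0 : ℂ) s = ball 0 1 := by
      ext w
      simp only [mem_preimage, mem_ball_zero_iff, norm_smul, Real.norm_eq_abs, abs_of_pos hs]
      rw [mul_lt_iff_lt_one_right hs]
    calc ∫⁻ w in ball (0 : ℂ) 1, f (s • w)
        = ∫⁻ w, f (s • w) ∂(volume.restrict ((fun w : ℂ => s • w) ⁻¹' ball (0 : ℂ) s)) := by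
          rw [h3]
      _ = ∫⁻ w, f w ∂((volume.restrict ((fun w : ℂ => s • w) ⁻¹' ball (0 : ℂ) s)).map
            (fun w : ℂ => s • w)) := (he.lintegral_map f).symm
      _ = ∫⁻ w in ball (0 : ℂ) s, f w ∂(volume.map (fun w : ℂ => s • w)) := by
          rw [← he.restrict_map]
      _ = _ := by
          rw [h1, Measure.restrict_smul, lintegral_smul_measure, smul_eq_mul]
  simp_rw [hf] at h2
  rw [lintegral_const_mul' _ _ ENNReal.ofReal_ne_top] at h2
  have h5 : ENNReal.ofReal (s ^ 2) * ENNReal.ofReal |(s ^ 2)⁻¹| = 1 := by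
    rw [← ENNReal.ofReal_mul (by positivity), abs_of_pos (by positivity),
      mul_inv_cancel₀ (by positivity), ENNReal.ofReal_one]
  calc ∫⁻ w in ball (0 : ℂ) s, f w
      = (ENNReal.ofReal (s ^ 2) * ENNReal.ofReal |(s ^ 2)⁻¹|) * ∫⁻ w in ball (0 : ℂ) s, f w := by
        rw [h5, one_mul]
    _ = ENNReal.ofReal (s ^ 2) * (ENNReal.ofReal (s ^ 2) * ∫⁻ w in ball (0 : ℂ) 1, f w) := by
        rw [h2, mul_assoc]
    _ = _ := by
        rw [← mul_assoc, ← ENNReal.ofReal_mul (by positivity)]
        congr 2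
        ring

/-- `∫ |w|²` over the unit disc. -/
theorem second_moment : ∫⁻ w in ball (0 : ℂ) 1, ENNReal.ofReal (‖w‖ ^ 2) =
    ENNReal.ofReal (Real.pi / 2) := by
  have h1 := Complex.lintegral_comp_polarCoord_symm
    ((ball (0 : ℂ) 1).indicator fun w => ENNReal.ofReal (‖w‖ ^ 2))
  rw [lintegral_indicator measurableSet_ball] at h1
  rw [← h1]
  have h2 : ∀ p ∈ polarCoord.target, ENNReal.ofReal p.1 •
      ((ball (0 : ℂ) 1).indicator fun w => ENNReal.ofReal (‖w‖ ^ 2)) (Complex.polarCoord.symm p) =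
      ((Ioo (0 : ℝ) 1).indicator (fun r => ENNReal.ofReal (r ^ 3)) p.1) *
        (fun _ : ℝ => (1 : ℝ≥0∞)) p.2 := by
    intro p hp
    have hp0 : 0 < p.1 := hp.1
    have hn : ‖Complex.polarCoord.symm p‖ = p.1 := by
      rw [Complex.norm_polarCoord_symm, abs_of_pos hp0]
    by_cases h : p.1 < 1
    · rw [indicator_of_mem (by rw [mem_ball_zero_iff, hn]; exact h),
        indicator_of_mem (by exact ⟨hp0, h⟩), hn, smul_eq_mul, mul_one,
        ← ENNReal.ofReal_mul hp0.le]
      congr 1
      ring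
    · rw [indicator_of_notMem (by rw [mem_ball_zero_iff, hn]; exact h),
        indicator_of_notMem (by exact fun h' => h h'.2)]
      simp
  rw [setLIntegral_congr_fun polarCoord.open_target.measurableSet h2]
  have h3 : (polarCoord.target : Set (ℝ × ℝ)) = Ioi 0 ×ˢ Ioo (-Real.pi) Real.pi := rfl
  have h4 : (volume : Measure (ℝ × ℝ)).restrict (Ioi 0 ×ˢ Ioo (-Real.pi) Real.pi) =
      (volume.restrict (Ioi 0)).prod (volume.restrict (Ioo (-Real.pi) Real.pi)) := by
    rw [Measure.prod_restrict]; rfl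
  rw [h3, h4, lintegral_prod_mul (f := (Ioo (0 : ℝ) 1).indicator (fun r => ENNReal.ofReal (r ^ 3)))
    (g := fun _ : ℝ => (1 : ℝ≥0∞)) _ aemeasurable_const]
  · rw [lintegral_indicator measurableSet_Ioo, Measure.restrict_restrict measurableSet_Ioo]
    have h5 : Ioo (0 : ℝ) 1 ∩ Ioi 0 = Ioo 0 1 := by
      ext r
      simp only [mem_inter_iff, mem_Ioo, mem_Ioi]
      tauto
    rw [h5, Pool.Agent.Y919.RB.int_cube, lintegral_one, Measure.restrict_apply_univ,
      Real.volume_Ioo, ← ENNReal.ofReal_mul (by norm_num)]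
    congr 1
    ring
  · exact (((measurable_id.pow_const 3).ennreal_ofReal).indicator measurableSet_Ioo).aemeasurable

/-- The second moment of a half disc. -/
theorem half_moment {a b : ℝ} (hab : a ^ 2 + b ^ 2 = 1) :
    ∫⁻ w in ball (0 : ℂ) 1, ENNReal.ofReal (max (a * w.re + b * w.im) 0 ^ 2) =
      ENNReal.ofReal (Real.pi / 8) := by
  let f : ℂ → ℝ≥0∞ := fun w => ENNReal.ofReal (max (a * w.re + b * w.im) 0 ^ 2)
  have hfm : Measurable f := by
    refine Measurable.ennreal_ofReal (Measurable.pow_const (Measurable.max ?_ measurable_const) 2)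
    exact ((measurable_const.mul Complex.measurable_re).add
      (measurable_const.mul Complex.measurable_im))
  have hrot : ∀ u : ℂ, ‖u‖ = 1 → ∫⁻ w in ball (0 : ℂ) 1, f (u * w) =
      ∫⁻ w in ball (0 : ℂ) 1, f w := by
    intro u hu
    let R : ℂ ≃ₗᵢ[ℝ] ℂ := rotation ⟨u, mem_sphere_zero_iff_norm.2 hu⟩
    have hR : MeasurePreserving R volume volume := R.measurePreserving
    have h1 : R ⁻¹' ball (0 : ℂ) 1 = ball 0 1 := by
      ext w
      simp
    have h2 := hR.setLIntegral_comp_preimage_emb R.toHomeomorph.measurableEmbedding f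
      (ball (0 : ℂ) 1)
    rw [h1] at h2
    exact h2
  have h1 := hrot 1 (by simp)
  have h2 := hrot Complex.I (by simp)
  have h3 := hrot (-1) (by simp)
  have h4 := hrot (-Complex.I) (by simp)
  have hsum : ∀ w : ℂ, f (1 * w) + f (Complex.I * w) + f (-1 * w) + f (-Complex.I * w) =
      ENNReal.ofReal (‖w‖ ^ 2) := by
    intro w
    show ENNReal.ofReal _ + ENNReal.ofReal _ + ENNReal.ofReal _ + ENNReal.ofReal _ = _
    rw [← ENNReal.ofReal_add (by positivity) (by positivity),
      ← ENNReal.ofReal_add (by positivity) (by positivity),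
      ← ENNReal.ofReal_add (by positivity) (by positivity)]
    congr 1
    have hk : ∀ s : ℝ, max s 0 ^ 2 + max (-s) 0 ^ 2 = s ^ 2 := by
      intro s
      rcases le_total 0 s with h | h
      · rw [max_eq_left h, max_eq_right (by linarith)]
        ring
      · rw [max_eq_right h, max_eq_left (by linarith)]
        ring
    have e1 : a * (1 * w).re + b * (1 * w).im = a * w.re + b * w.im := by simp
    have e2 : a * (Complex.I * w).re + b * (Complex.I * w).im = b * w.re - a * w.im := by
      simp; ring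
    have e3 : a * (-1 * w).re + b * (-1 * w).im = -(a * w.re + b * w.im) := by simp; ring
    have e4 : a * (-Complex.I * w).re + b * (-Complex.I * w).im = -(b * w.re - a * w.im) := by
      simp; ring
    rw [e1, e2, e3, e4]
    have g1 := hk (a * w.re + b * w.im)
    have g2 := hk (b * w.re - a * w.im)
    have g3 : ‖w‖ ^ 2 = w.re ^ 2 + w.im ^ 2 := by
      rw [← Complex.normSq_eq_norm_sq, Complex.normSq_apply]
      ring
    rw [g3]
    linear_combination g1 + g2 + (w.re ^ 2 + w.im ^ 2) * hab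
  have hmul : ∀ u : ℂ, Measurable fun w => f (u * w) := fun u =>
    hfm.comp (measurable_const.mul measurable_id)
  have h5 : ∫⁻ w in ball (0 : ℂ) 1, ENNReal.ofReal (‖w‖ ^ 2) =
      4 * ∫⁻ w in ball (0 : ℂ) 1, f w := by
    simp_rw [← hsum]
    have m2 : Measurable fun w => f (1 * w) + f (Complex.I * w) := (hmul 1).add (hmul _)
    have m3 : Measurable fun w => f (1 * w) + f (Complex.I * w) + f (-1 * w) := m2.add (hmul _)
    rw [lintegral_add_left m3, lintegral_add_left m2, lintegral_add_left (hmul 1), h1, h2, h3, h4]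
    ring
  rw [second_moment] at h5
  have h6 : ∫⁻ w in ball (0 : ℂ) 1, f w = ENNReal.ofReal (1 / 4) * ENNReal.ofReal (Real.pi / 2) := by
    rw [h5, ← mul_assoc]
    have : ENNReal.ofReal (1 / 4) * 4 = 1 := by
      rw [← ENNReal.ofReal_ofNat 4, ← ENNReal.ofReal_mul (by norm_num)]
      norm_num
    rw [this, one_mul]
  show ∫⁻ w in ball (0 : ℂ) 1, f w = _
  rw [h6, ← ENNReal.ofReal_mul (by norm_num)]
  congr 1
  ring

end Pool.Agent.W7h56.WE
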