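import Pool.Agent.W7h56.WE.Def

/-!
# Properties of the map `psi`
-/

set_option autoImplicit false

namespace Pool.Agent.W7h56.WE

open scoped ContDiff RealInnerProductSpace ENNReal Topology
open MeasureTheory Set Metric Pool.Agent.Y503.RB

theorem inner_lt_one {p x : E4} (hp : ‖p‖ < 1) (hx : ‖x‖ ≤ 1) : ⟪x, p⟫ < 1 := by
  have h1 : ⟪x, p⟫ ≤ ‖x‖ * ‖p‖ := real_inner_le_norm x p
  nlinarith [norm_nonneg x, norm_nonneg p]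

theorem DD_pos {p x : E4} {ε : ℝ} (hp : ‖p‖ < 1) (hε : 0 < ε) (hx : ‖x‖ ≤ 1) : 0 < DD p ε x := by
  have h1 := inner_lt_one hp hx
  have h2 : 0 ≤ 1 - ‖x‖ ^ 2 := by nlinarith [norm_nonneg x]
  unfold DD
  have : 0 ≤ (1 - ‖x‖ ^ 2) * (2 - 2 * ⟪x, p⟫) := mul_nonneg h2 (by linarith)
  linarith

theorem FF_pos {p x : E4} {ε : ℝ} (hp : ‖p‖ < 1) (hε : 0 < ε) (hx : ‖x‖ < 1) : 0 < FF p ε x := by
  have h1 := inner_lt_one hp hx.le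
  have h2 : 0 < 1 - ‖x‖ ^ 2 := by nlinarith [norm_nonneg x]
  unfold FF
  have : 0 < ε / (1 - ‖x‖ ^ 2) := by positivity
  linarith

theorem QQ_eq {p x : E4} {ε : ℝ} (hx : ‖x‖ < 1) : QQ p ε x = (FF p ε x)⁻¹ := by
  have h2 : 0 < 1 - ‖x‖ ^ 2 := by nlinarith [norm_nonneg x]
  unfold QQ DD FF
  have e : (1 - ‖x‖ ^ 2) * (2 - 2 * ⟪x, p⟫) + ε =
      (1 - ‖x‖ ^ 2) * (2 - 2 * ⟪x, p⟫ + ε / (1 - ‖x‖ ^ 2)) := by
    field_simp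
  rw [e, div_mul_eq_div_div, div_self h2.ne', one_div]

theorem QQ_sphere {p x : E4} {ε : ℝ} (hx : ‖x‖ = 1) : QQ p ε x = 0 := by
  unfold QQ
  rw [hx]
  simp

theorem QQ_nonneg {p x : E4} {ε : ℝ} (hp : ‖p‖ < 1) (hε : 0 < ε) (hx : ‖x‖ ≤ 1) :
    0 ≤ QQ p ε x := by
  have h2 : 0 ≤ 1 - ‖x‖ ^ 2 := by nlinarith [norm_nonneg x]
  exact div_nonneg h2 (DD_pos hp hε hx).le

theorem QQ_pos {p x : E4} {ε : ℝ} (hp : ‖p‖ < 1) (hε : 0 < ε) (hx : ‖x‖ < 1) :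
    0 < QQ p ε x := by
  have h2 : 0 < 1 - ‖x‖ ^ 2 := by nlinarith [norm_nonneg x]
  exact div_pos h2 (DD_pos hp hε hx.le)

/-! ### the radial projection -/

theorem rad_pos {q x : E4} (hq : ‖q‖ < 1) (hx : x ≠ q) :
    0 < ⟪q, x - q⟫ ^ 2 + ‖x - q‖ ^ 2 * (1 - ‖q‖ ^ 2) := by
  have h1 : 0 < ‖x - q‖ := norm_pos_iff.mpr (sub_ne_zero.mpr hx)
  have h2 : 0 < 1 - ‖q‖ ^ 2 := by nlinarith [norm_nonneg q]
  positivity

theorem lam_quad {q x : E4} (hq : ‖q‖ < 1) (hx : x ≠ q) :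
    ‖x - q‖ ^ 2 * lam q x ^ 2 + 2 * ⟪q, x - q⟫ * lam q x = 1 - ‖q‖ ^ 2 := by
  have h1 : 0 < ‖x - q‖ := norm_pos_iff.mpr (sub_ne_zero.mpr hx)
  have h2 := rad_pos hq hx
  have h3 := Real.sq_sqrt h2.le
  unfold lam
  field_simp
  linear_combination h3

theorem lam_pos {q x : E4} (hq : ‖q‖ < 1) (hx : x ≠ q) : 0 < lam q x := by
  have h1 : 0 < ‖x - q‖ := norm_pos_iff.mpr (sub_ne_zero.mpr hx)
  have h2 : 0 < 1 - ‖q‖ ^ 2 := by nlinarith [norm_nonneg q]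
  unfold lam
  refine div_pos ?_ (by positivity)
  have h3 : |⟪q, x - q⟫| < √(⟪q, x - q⟫ ^ 2 + ‖x - q‖ ^ 2 * (1 - ‖q‖ ^ 2)) := by
    rw [← Real.sqrt_sq_eq_abs]
    refine Real.sqrt_lt_sqrt (sq_nonneg _) ?_
    have : 0 < ‖x - q‖ ^ 2 * (1 - ‖q‖ ^ 2) := by positivity
    linarith
  have h4 := le_abs_self ⟪q, x - q⟫
  linarith

theorem rproj_norm {q x : E4} (hq : ‖q‖ < 1) (hx : x ≠ q) : ‖rproj q x‖ = 1 := by
  have h1 := lam_quad hq hx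
  have h2 : ‖rproj q x‖ ^ 2 = 1 := by
    unfold rproj
    rw [norm_add_sq_real, norm_smul, inner_smul_right, mul_pow, Real.norm_eq_abs, sq_abs]
    linear_combination h1
  nlinarith [norm_nonneg (rproj q x)]

theorem lam_sphere {q x : E4} (hq : ‖q‖ < 1) (hx : ‖x‖ = 1) : lam q x = 1 := by
  have hne : x ≠ q := by
    rintro rfl
    linarith
  have h1 : 0 < ‖x - q‖ := norm_pos_iff.mpr (sub_ne_zero.mpr hne)
  have h2 : ‖x - q‖ ^ 2 = 1 - 2 * ⟪q, x⟫ + ‖q‖ ^ 2 := by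
    rw [norm_sub_sq_real, hx, real_inner_comm]
    ring
  have h3 : ⟪q, x - q⟫ = ⟪q, x⟫ - ‖q‖ ^ 2 := by
    rw [inner_sub_right, real_inner_self_eq_norm_sq]
  have h4 : ⟪q, x⟫ < 1 := by
    have : ⟪q, x⟫ ≤ ‖q‖ * ‖x‖ := real_inner_le_norm q x
    rw [hx, mul_one] at this
    linarith
  have h5 : ⟪q, x - q⟫ ^ 2 + ‖x - q‖ ^ 2 * (1 - ‖q‖ ^ 2) = (1 - ⟪q, x⟫) ^ 2 := by
    rw [h3, h2]
    ring
  unfold lam
  rw [h5, Real.sqrt_sq (by linarith), h3]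
  rw [div_eq_one_iff_eq (by positivity), h2]
  ring

theorem rproj_sphere {q x : E4} (hq : ‖q‖ < 1) (hx : ‖x‖ = 1) : rproj q x = x := by
  unfold rproj
  rw [lam_sphere hq hx, one_smul]
  abel

theorem psi_norm {p q x : E4} {ε : ℝ} (hq : ‖q‖ < 1) (hx : x ≠ q) :
    ‖psi p q ε x‖ = Real.exp (-QQ p ε x) := by
  unfold psi
  rw [norm_smul, rproj_norm hq hx, mul_one, Real.norm_eq_abs, abs_of_pos (Real.exp_pos _)]

theorem psi_sphere {p q x : E4} {ε : ℝ} (hq : ‖q‖ < 1) (hx : ‖x‖ = 1) : psi p q ε x = x := by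
  unfold psi
  rw [QQ_sphere hx, rproj_sphere hq hx]
  simp

/-! ### convexity -/

/-- The convex function `1 / (1 - |x|²)` is above its tangents. -/
theorem conv_ineq {x y : E4} (hx : ‖x‖ < 1) (hy : ‖y‖ < 1) :
    2 * ⟪x, y - x⟫ / (1 - ‖x‖ ^ 2) ^ 2 ≤ 1 / (1 - ‖y‖ ^ 2) - 1 / (1 - ‖x‖ ^ 2) := by
  have hX : 0 < 1 - ‖x‖ ^ 2 := by nlinarith [norm_nonneg x]
  have hY : 0 < 1 - ‖y‖ ^ 2 := by nlinarith [norm_nonneg y]
  have h1 : 2 * ⟪x, y - x⟫ ≤ ‖y‖ ^ 2 - ‖x‖ ^ 2 := by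
    have h2 : 0 ≤ ‖y - x‖ ^ 2 := by positivity
    rw [norm_sub_sq_real, real_inner_comm] at h2
    rw [inner_sub_right, real_inner_self_eq_norm_sq]
    linarith
  have h2 : 1 / (1 - ‖y‖ ^ 2) - 1 / (1 - ‖x‖ ^ 2) =
      (‖y‖ ^ 2 - ‖x‖ ^ 2) / ((1 - ‖x‖ ^ 2) * (1 - ‖y‖ ^ 2)) := by
    field_simp
    ring
  rw [h2]
  calc 2 * ⟪x, y - x⟫ / (1 - ‖x‖ ^ 2) ^ 2 ≤ (‖y‖ ^ 2 - ‖x‖ ^ 2) / (1 - ‖x‖ ^ 2) ^ 2 := by
        gcongr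
    _ ≤ _ := by
        rw [div_le_div_iff₀ (by positivity) (by positivity)]
        have h3 : (‖y‖ ^ 2 - ‖x‖ ^ 2) * ((1 - ‖x‖ ^ 2) ^ 2) -
            (‖y‖ ^ 2 - ‖x‖ ^ 2) * ((1 - ‖x‖ ^ 2) * (1 - ‖y‖ ^ 2)) =
            (1 - ‖x‖ ^ 2) * (‖y‖ ^ 2 - ‖x‖ ^ 2) ^ 2 := by ring
        have h4 : 0 ≤ (1 - ‖x‖ ^ 2) * (‖y‖ ^ 2 - ‖x‖ ^ 2) ^ 2 := by positivity
        linarith

/-- `ee` is an increasing function of the norm. -/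
theorem ee_mono {x y : E4} {ε : ℝ} (hε : 0 < ε) (hx : ‖x‖ < 1) (hy : ‖y‖ < 1) :
    0 ≤ (ee ε x - ee ε y) * (‖x‖ ^ 2 - ‖y‖ ^ 2) := by
  have key : ∀ a b : E4, ‖a‖ < 1 → ‖b‖ < 1 → ‖a‖ ^ 2 ≤ ‖b‖ ^ 2 → ee ε a ≤ ee ε b := by
    intro a b ha hb hab
    have hX : 0 < 1 - ‖a‖ ^ 2 := by nlinarith [norm_nonneg a]
    have hY : 0 < 1 - ‖b‖ ^ 2 := by nlinarith [norm_nonneg b]
    unfold ee
    gcongr
  rcases le_total (‖x‖ ^ 2) (‖y‖ ^ 2) with h | h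
  · exact mul_nonneg_of_nonpos_of_nonpos (by linarith [key x y hx hy h]) (by linarith)
  · exact mul_nonneg (by linarith [key y x hy hx h]) (by linarith)

/-- Strict monotonicity of `x ↦ ee x • x`. -/
theorem mono_strict {x q : E4} {ε : ℝ} (hε : 0 < ε) (hx : ‖x‖ < 1) (hq : ‖q‖ < 1) (hne : x ≠ q) :
    0 < ⟪ee ε x • x - ee ε q • q, x - q⟫ := by
  have hX : 0 < 1 - ‖x‖ ^ 2 := by nlinarith [norm_nonneg x]
  have hQ : 0 < 1 - ‖q‖ ^ 2 := by nlinarith [norm_nonneg q]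
  have h1 : 0 < ‖x - q‖ := norm_pos_iff.mpr (sub_ne_zero.mpr hne)
  have h2 : 0 < ee ε x := by unfold ee; positivity
  have h3 : 0 < ee ε q := by unfold ee; positivity
  have h4 := ee_mono hε hx hq
  have h5 : ⟪ee ε x • x - ee ε q • q, x - q⟫ =
      (ee ε x + ee ε q) / 2 * ‖x - q‖ ^ 2 + (ee ε x - ee ε q) * (‖x‖ ^ 2 - ‖q‖ ^ 2) / 2 := by
    rw [norm_sub_sq_real]
    simp only [inner_sub_left, inner_sub_right, inner_smul_left, real_inner_self_eq_norm_sq,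
      conj_trivial]
    rw [real_inner_comm x q]
    ring
  rw [h5]
  have h6 : 0 < (ee ε x + ee ε q) / 2 * ‖x - q‖ ^ 2 := by positivity
  linarith

/-- `FF` increases strictly along the rays from its minimum `q`. -/
theorem FF_lt {p q x y : E4} {ε s : ℝ} (hε : 0 < ε) (hq : ‖q‖ < 1) (hpq : p = ee ε q • q)
    (hx : ‖x‖ < 1) (hy : ‖y‖ < 1) (hne : x ≠ q) (hs : 0 < s) (hxy : y - x = s • (x - q)) :
    FF p ε x < FF p ε y := by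
  have h1 := conv_ineq hx hy
  have h2 := mono_strict hε hx hq hne
  rw [← hpq] at h2
  have h3 : FF p ε y - FF p ε x =
      -2 * ⟪y - x, p⟫ + ε * (1 / (1 - ‖y‖ ^ 2) - 1 / (1 - ‖x‖ ^ 2)) := by
    unfold FF
    rw [inner_sub_left]
    ring
  have h4 : 0 < FF p ε y - FF p ε x := by
    rw [h3]
    have h5 : ε * (2 * ⟪x, y - x⟫ / (1 - ‖x‖ ^ 2) ^ 2) ≤
        ε * (1 / (1 - ‖y‖ ^ 2) - 1 / (1 - ‖x‖ ^ 2)) := by gcongr
    have h6 : -2 * ⟪y - x, p⟫ + ε * (2 * ⟪x, y - x⟫ / (1 - ‖x‖ ^ 2) ^ 2) =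
        2 * s * ⟪ee ε x • x - p, x - q⟫ := by
      rw [hxy, inner_smul_left, inner_smul_right, inner_sub_left (ee ε x • x), inner_smul_left,
        real_inner_comm p (x - q)]
      simp only [conj_trivial]
      unfold ee
      ring
    have h7 : 0 < 2 * s * ⟪ee ε x • x - p, x - q⟫ := by positivity
    linarith
  linarith

end Pool.Agent.W7h56.WE
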