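import Pool.Agent.W7h56.WE.Psi

/-!
# The map `psi` is an injective immersion
-/

set_option autoImplicit false

namespace Pool.Agent.W7h56.WE

open scoped ContDiff RealInnerProductSpace ENNReal Topology
open MeasureTheory Set Metric Pool.Agent.Y503.RB

theorem psi_inj_aux {p q x y : E4} {ε : ℝ} (hε : 0 < ε) (hq : ‖q‖ < 1)
    (hpq : p = ee ε q • q) (hx : ‖x‖ < 1) (hy : ‖y‖ < 1) (hxq : x ≠ q)
    (hF : FF p ε x = FF p ε y) {t : ℝ} (ht : 1 < t) (h : y - q = t • (x - q)) : False := by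
  have h1 : y - x = (t - 1) • (x - q) := by
    have : y - x = (y - q) - (x - q) := by abel
    rw [this, h, sub_smul, one_smul]
  have := FF_lt hε hq hpq hx hy hxq (sub_pos.mpr ht) h1
  rw [hF] at this
  exact lt_irrefl _ this

theorem psi_inj {p q x y : E4} {ε : ℝ} (hp : ‖p‖ < 1) (hε : 0 < ε) (hq : ‖q‖ < 1)
    (hpq : p = ee ε q • q) (hx : ‖x‖ ≤ 1) (hy : ‖y‖ ≤ 1) (hxq : x ≠ q) (hyq : y ≠ q)
    (h : psi p q ε x = psi p q ε y) : x = y := by
  have hQ : QQ p ε x = QQ p ε y := by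
    have h1 := congrArg norm h
    rw [psi_norm hq hxq, psi_norm hq hyq] at h1
    have := Real.exp_injective h1
    linarith
  have hr : rproj q x = rproj q y := by
    unfold psi at h
    rw [hQ] at h
    exact smul_right_injective E4 (Real.exp_pos _).ne' h
  rcases hx.lt_or_eq with hx1 | hx1
  · have hy1 : ‖y‖ < 1 := by
      rcases hy.lt_or_eq with hy1 | hy1
      · exact hy1
      · exfalso
        have h1 := QQ_pos (p := p) hp hε hx1
        rw [hQ, QQ_sphere hy1] at h1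
        exact lt_irrefl _ h1
    have hF : FF p ε x = FF p ε y := by
      have h1 := QQ_eq (p := p) (ε := ε) hx1
      have h2 := QQ_eq (p := p) (ε := ε) hy1
      rw [h1, h2] at hQ
      exact inv_injective hQ
    have l1 := lam_pos hq hxq
    have l2 := lam_pos hq hyq
    have h3 : lam q x • (x - q) = lam q y • (y - q) := by
      unfold rproj at hr
      exact add_left_cancel hr
    have h4 : y - q = (lam q x / lam q y) • (x - q) := by
      rw [div_eq_inv_mul, mul_smul, h3, smul_smul, inv_mul_cancel₀ l2.ne', one_smul]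
    rcases lt_trichotomy (lam q x / lam q y) 1 with ht | ht | ht
    · exfalso
      have ht0 : 0 < lam q x / lam q y := div_pos l1 l2
      refine psi_inj_aux hε hq hpq hy1 hx1 hyq hF.symm (t := (lam q x / lam q y)⁻¹)
        ((one_lt_inv₀ ht0).mpr ht) ?_
      rw [h4, smul_smul, inv_mul_cancel₀ ht0.ne', one_smul]
    · rw [ht, one_smul] at h4
      exact (sub_left_injective h4).symm
    · exact (psi_inj_aux hε hq hpq hx1 hy1 hxq hF ht h4).elim
  · have hy1 : ‖y‖ = 1 := by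
      rcases hy.lt_or_eq with hy1 | hy1
      · exfalso
        have h1 := QQ_pos (p := p) hp hε hy1
        rw [← hQ, QQ_sphere hx1] at h1
        exact lt_irrefl _ h1
      · exact hy1
    rw [rproj_sphere hq hx1, rproj_sphere hq hy1] at hr
    exact hr

/-! ### smoothness -/

theorem QQ_smooth {p x : E4} {ε : ℝ} (hx : DD p ε x ≠ 0) : ContDiffAt ℝ ∞ (QQ p ε) x := by
  unfold QQ
  refine ContDiffAt.div ?_ ?_ hx
  · exact contDiffAt_const.sub (contDiffAt_id.norm_sq ℝ)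
  · unfold DD
    exact ((contDiffAt_const.sub (contDiffAt_id.norm_sq ℝ)).mul
      (contDiffAt_const.sub (contDiffAt_const.mul (contDiffAt_id.inner ℝ contDiffAt_const)))).add
      contDiffAt_const

theorem lam_smooth {q x : E4} (hq : ‖q‖ < 1) (hx : x ≠ q) : ContDiffAt ℝ ∞ (lam q) x := by
  have h1 := rad_pos hq hx
  have h2 : ContDiffAt ℝ ∞ (fun x : E4 => ⟪q, x - q⟫) x :=
    contDiffAt_const.inner ℝ (contDiffAt_id.sub contDiffAt_const)
  have h3 : ContDiffAt ℝ ∞ (fun x : E4 => ‖x - q‖ ^ 2) x :=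
    (contDiffAt_id.sub contDiffAt_const).norm_sq ℝ
  unfold lam
  refine ContDiffAt.div (h2.neg.add (ContDiffAt.sqrt ?_ h1.ne')) h3 ?_
  · exact (h2.pow 2).add (h3.mul contDiffAt_const)
  · have : 0 < ‖x - q‖ := norm_pos_iff.mpr (sub_ne_zero.mpr hx)
    positivity

theorem rproj_smooth {q x : E4} (hq : ‖q‖ < 1) (hx : x ≠ q) : ContDiffAt ℝ ∞ (rproj q) x := by
  unfold rproj
  exact contDiffAt_const.add ((lam_smooth hq hx).smul (contDiffAt_id.sub contDiffAt_const))

theorem psi_smooth {p q x : E4} {ε : ℝ} (hq : ‖q‖ < 1) (hx : x ≠ q) (hD : DD p ε x ≠ 0) :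
    ContDiffAt ℝ ∞ (psi p q ε) x := by
  unfold psi
  exact ((QQ_smooth hD).neg.exp).smul (rproj_smooth hq hx)

/-! ### the derivative of `QQ` -/

theorem QQ_fderiv {p x : E4} {ε : ℝ} (hx : DD p ε x ≠ 0) (v : E4) :
    fderiv ℝ (QQ p ε) x v =
      -(2 / DD p ε x ^ 2) * (ε * ⟪x, v⟫ - (1 - ‖x‖ ^ 2) ^ 2 * ⟪p, v⟫) := by
  have h1 : HasFDerivAt (fun x : E4 => ‖x‖ ^ 2) (2 • (innerSL ℝ x)) x :=
    (hasStrictFDerivAt_norm_sq x).hasFDerivAt
  have h2 : HasFDerivAt (fun x : E4 => 1 - ‖x‖ ^ 2) (-(2 • (innerSL ℝ x))) x := h1.const_sub 1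
  have h3 : HasFDerivAt (fun x : E4 => ⟪x, p⟫) (innerSL ℝ p) x := by
    have := (innerSL ℝ p).hasFDerivAt (x := x)
    refine this.congr_of_eventuallyEq (Filter.Eventually.of_forall fun y => ?_)
    simp [real_inner_comm]
  have h4 : HasFDerivAt (fun x : E4 => 2 - 2 * ⟪x, p⟫) (-((2 : ℝ) • innerSL ℝ p)) x :=
    (h3.const_mul 2).const_sub 2
  have h5 : HasFDerivAt (DD p ε)
      ((1 - ‖x‖ ^ 2) • (-((2 : ℝ) • innerSL ℝ p)) + (2 - 2 * ⟪x, p⟫) • (-(2 • (innerSL ℝ x)))) x :=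
    (h2.mul h4).add_const ε
  have h6 := h2.mul ((hasDerivAt_inv hx).comp_hasFDerivAt x h5)
  have h7 : (fun x : E4 => (1 - ‖x‖ ^ 2) * (DD p ε x)⁻¹) = QQ p ε := by
    funext y
    unfold QQ
    rw [div_eq_mul_inv]
  have h8 := h6.fderiv
  have h8' : fderiv ℝ (QQ p ε) x = fderiv ℝ (fun x : E4 => (1 - ‖x‖ ^ 2) * (DD p ε x)⁻¹) x := by
    rw [h7]
  rw [h8']
  refine (congrArg (fun L : E4 →L[ℝ] ℝ => L v) h8).trans ?_
  simp only [ContinuousLinearMap.add_apply, ContinuousLinearMap.smul_apply,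
    ContinuousLinearMap.neg_apply, innerSL_apply_apply, smul_eq_mul, nsmul_eq_mul]
  have h9 : DD p ε x = (1 - ‖x‖ ^ 2) * (2 - 2 * ⟪x, p⟫) + ε := rfl
  have h10 : ((fun y : ℝ => y⁻¹) ∘ DD p ε) x = (DD p ε x)⁻¹ := rfl
  rw [h10]
  generalize hd : DD p ε x = d at *
  push_cast
  field_simp
  rw [h9]
  ring

/-- `QQ` decreases strictly in the direction away from `q`. -/
theorem QQ_radial {p q x : E4} {ε : ℝ} (hp : ‖p‖ < 1) (hε : 0 < ε) (hq : ‖q‖ < 1)
    (hpq : p = ee ε q • q) (hx : ‖x‖ ≤ 1) (hne : x ≠ q) :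
    fderiv ℝ (QQ p ε) x (x - q) < 0 := by
  have hD := DD_pos hp hε hx
  rw [QQ_fderiv hD.ne']
  have h0 : 0 < 2 / DD p ε x ^ 2 := by positivity
  have key : 0 < ε * ⟪x, x - q⟫ - (1 - ‖x‖ ^ 2) ^ 2 * ⟪p, x - q⟫ := by
    rcases hx.lt_or_eq with hx1 | hx1
    · have hX : 0 < 1 - ‖x‖ ^ 2 := by nlinarith [norm_nonneg x]
      have h1 := mono_strict hε hx1 hq hne
      rw [← hpq, inner_sub_left, inner_smul_left] at h1
      simp only [conj_trivial] at h1
      have h2 : ε * ⟪x, x - q⟫ - (1 - ‖x‖ ^ 2) ^ 2 * ⟪p, x - q⟫ =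
          (1 - ‖x‖ ^ 2) ^ 2 * (ee ε x * ⟪x, x - q⟫ - ⟪p, x - q⟫) := by
        unfold ee
        field_simp
      rw [h2]
      positivity
    · rw [hx1]
      have h1 : ⟪x, x - q⟫ = 1 - ⟪x, q⟫ := by
        rw [inner_sub_right, real_inner_self_eq_norm_sq, hx1]
        norm_num
      have h2 := inner_lt_one hq hx1.le
      rw [h1]
      have : 0 < ε * (1 - ⟪x, q⟫) := mul_pos hε (by linarith)
      linarith
  nlinarith

theorem psi_imm {p q x : E4} {ε : ℝ} (hp : ‖p‖ < 1) (hε : 0 < ε) (hq : ‖q‖ < 1)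
    (hpq : p = ee ε q • q) (hx : ‖x‖ ≤ 1) (hne : x ≠ q) :
    Function.Injective (fderiv ℝ (psi p q ε) x) := by
  have hD := (DD_pos hp hε hx).ne'
  have dP := (psi_smooth (p := p) hq hne hD).differentiableAt (by simp)
  have dQ := (QQ_smooth hD).differentiableAt (by simp)
  have dR := (rproj_smooth hq hne).differentiableAt (by simp)
  have dL := (lam_smooth hq hne).differentiableAt (by simp)
  have hrad := QQ_radial hp hε hq hpq hx hne
  have key : ∀ h : E4, fderiv ℝ (psi p q ε) x h = 0 → h = 0 := by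
    intro h h0
    -- derivative of the product
    have e1 : HasFDerivAt (fun x => Real.exp (-QQ p ε x))
        (Real.exp (-QQ p ε x) • -fderiv ℝ (QQ p ε) x) x := dQ.hasFDerivAt.neg.exp
    have e2 : fderiv ℝ (psi p q ε) x h = Real.exp (-QQ p ε x) • fderiv ℝ (rproj q) x h +
        (-(Real.exp (-QQ p ε x) * fderiv ℝ (QQ p ε) x h)) • rproj q x := by
      have e3 : HasFDerivAt (psi p q ε) _ x := e1.smul dR.hasFDerivAt
      rw [e3.fderiv]
      simp
    -- the norm of `rproj` is constant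
    have e4 : ⟪rproj q x, fderiv ℝ (rproj q) x h⟫ = 0 := by
      have f1 : (fun y => ⟪rproj q y, rproj q y⟫) =ᶠ[𝓝 x] fun _ => (1 : ℝ) := by
        filter_upwards [isOpen_ne.mem_nhds hne] with y hy
        rw [real_inner_self_eq_norm_sq, rproj_norm hq hy]
        norm_num
      have f2 := f1.fderiv_eq (𝕜 := ℝ)
      have f3 := fderiv_inner_apply ℝ dR dR h
      rw [f2] at f3
      have f4 : ⟪fderiv ℝ (rproj q) x h, rproj q x⟫ = ⟪rproj q x, fderiv ℝ (rproj q) x h⟫ :=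
        real_inner_comm _ _
      rw [f4] at f3
      have f5 : (0 : ℝ) = ⟪rproj q x, fderiv ℝ (rproj q) x h⟫ +
        ⟪rproj q x, fderiv ℝ (rproj q) x h⟫ := by simpa using f3
      linarith
    have hE := Real.exp_pos (-QQ p ε x)
    have e5 : fderiv ℝ (QQ p ε) x h = 0 := by
      have g1 := congrArg (fun y => ⟪rproj q x, y⟫) (e2.symm.trans h0)
      simp only [inner_add_right, inner_smul_right, e4, inner_zero_right, mul_zero, zero_add,
        real_inner_self_eq_norm_sq, rproj_norm hq hne] at g1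
      have g2 : Real.exp (-QQ p ε x) * fderiv ℝ (QQ p ε) x h = 0 := by linarith
      rcases mul_eq_zero.mp g2 with h' | h'
      · exact absurd h' hE.ne'
      · exact h'
    have e6 : fderiv ℝ (rproj q) x h = 0 := by
      rw [e5] at e2
      rw [h0, mul_zero, neg_zero, zero_smul, add_zero] at e2
      rcases smul_eq_zero.mp e2.symm with h' | h'
      · exact absurd h' hE.ne'
      · exact h'
    have e7 : fderiv ℝ (rproj q) x h = lam q x • h + fderiv ℝ (lam q) x h • (x - q) := by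
      have g1 : HasFDerivAt (rproj q) _ x :=
        ((dL.hasFDerivAt.smul ((hasFDerivAt_id x).sub_const q)).const_add q)
      rw [g1.fderiv]
      simp
    have hl := lam_pos hq hne
    have e8 : h = (-(lam q x)⁻¹ * fderiv ℝ (lam q) x h) • (x - q) := by
      rw [e6] at e7
      have g1 : lam q x • h = -(fderiv ℝ (lam q) x h • (x - q)) :=
        eq_neg_of_add_eq_zero_left e7.symm
      calc h = (lam q x)⁻¹ • (lam q x • h) := by
            rw [smul_smul, inv_mul_cancel₀ hl.ne', one_smul]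
        _ = (lam q x)⁻¹ • -(fderiv ℝ (lam q) x h • (x - q)) := by rw [g1]
        _ = _ := by rw [smul_neg, smul_smul, neg_mul, neg_smul]
    generalize hα : -(lam q x)⁻¹ * fderiv ℝ (lam q) x h = α at e8
    rw [e8, map_smul, smul_eq_mul] at e5
    rcases mul_eq_zero.mp e5 with h' | h'
    · rw [e8, h', zero_smul]
    · rw [h'] at hrad
      exact absurd hrad (lt_irrefl _)
  intro a b hab
  have := key (a - b) (by rw [map_sub, hab, sub_self])
  exact sub_eq_zero.mp this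

/-! ### the minimum of `FF` -/

theorem exists_min {p : E4} {ε : ℝ} (hp0 : p ≠ 0) (hp : ‖p‖ < 1) (hε : 0 < ε) :
    ∃ q : E4, ‖q‖ < 1 ∧ p = ee ε q • q ∧ ∃ t : ℝ, p = t • q := by
  have hn : 0 < ‖p‖ := norm_pos_iff.mpr hp0
  obtain ⟨δ, hδ0, hδ1, hδ2⟩ : ∃ δ : ℝ, 0 < δ ∧ δ ≤ 1 / 2 ∧ δ ^ 2 ≤ ε / 2 := by
    refine ⟨min (1 / 2) (√(ε / 2)), ?_, min_le_left _ _, ?_⟩
    · have : 0 < √(ε / 2) := Real.sqrt_pos.mpr (by positivity)
      exact lt_min (by norm_num) this
    · have h1 : min (1 / 2) (√(ε / 2)) ≤ √(ε / 2) := min_le_right _ _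
      have h0 : 0 ≤ min (1 / 2) (√(ε / 2)) := le_min (by norm_num) (Real.sqrt_nonneg _)
      calc (min (1 / 2) (√(ε / 2))) ^ 2 ≤ (√(ε / 2)) ^ 2 := by gcongr
        _ = ε / 2 := Real.sq_sqrt (by positivity)
  set T : ℝ := √(1 - δ) with hT
  have hT2 : T ^ 2 = 1 - δ := Real.sq_sqrt (by linarith)
  have hT0 : 0 ≤ T := Real.sqrt_nonneg _
  have hTh : 1 / 2 ≤ T := by
    by_contra hc
    push Not at hc
    nlinarith
  have hT1 : T < 1 := by nlinarith
  let g : ℝ → ℝ := fun t => ε * t / (1 - t ^ 2) ^ 2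
  have hg : ContinuousOn g (Icc 0 T) := by
    intro t ht
    have h1 : (1 - t ^ 2) ^ 2 ≠ 0 := by
      have : t < 1 := ht.2.trans_lt hT1
      have : 0 < 1 - t ^ 2 := by nlinarith [ht.1]
      positivity
    refine ContinuousAt.continuousWithinAt ?_
    refine ContinuousAt.div (by fun_prop) (by fun_prop) h1
  have hgT : ‖p‖ ≤ g T := by
    have h1 : g T = ε * T / δ ^ 2 := by
      show ε * T / (1 - T ^ 2) ^ 2 = _
      rw [hT2]
      ring_nf
    rw [h1, le_div_iff₀ (by positivity)]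
    nlinarith
  have hg0 : g 0 ≤ ‖p‖ := by
    show ε * 0 / (1 - 0 ^ 2) ^ 2 ≤ ‖p‖
    simp
  obtain ⟨t, ht, hgt⟩ := intermediate_value_Icc hT0 hg ⟨hg0, hgT⟩
  have ht1 : t < 1 := ht.2.trans_lt hT1
  have ht0 : 0 < t := by
    rcases ht.1.lt_or_eq with h | h
    · exact h
    · exfalso
      rw [← h] at hgt
      have : g 0 = 0 := by
        show ε * 0 / (1 - 0 ^ 2) ^ 2 = 0
        simp
      rw [this] at hgt
      linarith
  have hqn : ‖(t / ‖p‖) • p‖ = t := by
    rw [norm_smul, Real.norm_eq_abs, abs_of_pos (by positivity), div_mul_cancel₀ _ hn.ne']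
  refine ⟨(t / ‖p‖) • p, by rw [hqn]; exact ht1, ?_, ‖p‖ / t, ?_⟩
  · unfold ee
    rw [hqn, smul_smul]
    have h1 : ε / (1 - t ^ 2) ^ 2 * (t / ‖p‖) = 1 := by
      have h2 : ε * t / (1 - t ^ 2) ^ 2 = ‖p‖ := hgt
      have h3 : ε / (1 - t ^ 2) ^ 2 * (t / ‖p‖) = (ε * t / (1 - t ^ 2) ^ 2) / ‖p‖ := by ring
      rw [h3, h2, div_self hn.ne']
    rw [h1, one_smul]
  · rw [smul_smul]
    have : ‖p‖ / t * (t / ‖p‖) = 1 := by
      field_simp
    rw [this, one_smul]

end Pool.Agent.W7h56.WE
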