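import Pool.Agent.W7h56.WE.Main

/-!
# The Willmore energy bounds the total curvature
-/

set_option autoImplicit false

namespace Pool.Agent.W7h56.WE

open scoped ContDiff RealInnerProductSpace ENNReal Topology
open MeasureTheory Set Metric Pool.Agent.Y503.RB Filter

theorem exists_unit (a₀ b₀ : ℝ) : ∃ s a b : ℝ, 0 ≤ s ∧ s ^ 2 = a₀ ^ 2 + b₀ ^ 2 ∧
    a ^ 2 + b ^ 2 = 1 ∧ a₀ = s * a ∧ b₀ = s * b := by
  by_cases h : a₀ ^ 2 + b₀ ^ 2 = 0
  · have h1 : a₀ = 0 := by nlinarith [sq_nonneg a₀, sq_nonneg b₀]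
    have h2 : b₀ = 0 := by nlinarith [sq_nonneg a₀, sq_nonneg b₀]
    exact ⟨0, 1, 0, le_rfl, by rw [h]; norm_num, by norm_num, by simp [h1], by simp [h2]⟩
  · have hp : 0 < a₀ ^ 2 + b₀ ^ 2 := lt_of_le_of_ne (by positivity) (Ne.symm h)
    have hs : 0 < √(a₀ ^ 2 + b₀ ^ 2) := Real.sqrt_pos.mpr hp
    have hs2 : √(a₀ ^ 2 + b₀ ^ 2) ^ 2 = a₀ ^ 2 + b₀ ^ 2 := Real.sq_sqrt hp.le
    refine ⟨√(a₀ ^ 2 + b₀ ^ 2), a₀ / √(a₀ ^ 2 + b₀ ^ 2), b₀ / √(a₀ ^ 2 + b₀ ^ 2), hs.le, hs2, ?_,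
      ?_, ?_⟩
    · rw [div_pow, div_pow, hs2, ← add_div, div_self h]
    · field_simp
    · field_simp

theorem bessel (L : ℂ →ₗᵢ[ℝ] E4) (H : E4) :
    ⟪H, L 1⟫ ^ 2 + ⟪H, L Complex.I⟫ ^ 2 ≤ ‖H‖ ^ 2 := by
  have h1 : ‖L 1‖ = 1 := by rw [L.norm_map]; simp
  have h2 : ‖L Complex.I‖ = 1 := by rw [L.norm_map]; simp
  have h3 : ⟪L 1, L Complex.I⟫ = 0 := by
    rw [L.inner_map_map, Complex.inner]
    simp
  have h4 : 0 ≤ ‖H - ⟪H, L 1⟫ • L 1 - ⟪H, L Complex.I⟫ • L Complex.I‖ ^ 2 := by positivity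
  rw [norm_sub_sq_real, norm_sub_sq_real] at h4
  simp only [inner_sub_left, inner_smul_left, inner_smul_right, norm_smul, h1, h2, h3,
    Real.norm_eq_abs, mul_one, sq_abs, conj_trivial, mul_zero, sub_zero] at h4
  nlinarith

/-- The total curvature density is at most `π / 8` times the Willmore density. -/
theorem cdens_le {φ : ℂ → E4} {z : ℂ} (hi : Function.Injective (fderiv ℝ φ z)) :
    cdens φ z ≤ ENNReal.ofReal (Real.pi / 8) *
      ENNReal.ofReal (‖meanCurv φ z‖ ^ 2 * √(fffDet φ z)) := by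
  have hg := Pool.Agent.Y421.RB.fffDet_pos hi
  have hgs : 0 < √(fffDet φ z) := Real.sqrt_pos.mpr hg
  refine iSup₂_le fun L hL => ?_
  obtain ⟨s, a, b, hs0, hs2, hab, ha, hb⟩ :=
    exists_unit ⟪meanCurv φ z, L 1⟫ ⟪meanCurv φ z, L Complex.I⟫
  have hbes := bessel L (meanCurv φ z)
  rw [← hs2] at hbes
  have hin : ∀ w : ℂ, ⟪meanCurv φ z, L w⟫ = s * (a * w.re + b * w.im) := by
    intro w
    have e1 : L w = w.re • L 1 + w.im • L Complex.I := by
      rw [← map_smul, ← map_smul, ← map_add]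
      congr 1
      rw [Complex.real_smul, Complex.real_smul, mul_one]
      exact (Complex.re_add_im w).symm
    rw [e1, inner_add_right, inner_smul_right, inner_smul_right, ha, hb]
    ring
  have hpt : ∀ w : ℂ, ENNReal.ofReal (cdet φ (L w) z / √(fffDet φ z)) ≤
      ENNReal.ofReal (s ^ 2 * √(fffDet φ z)) *
        ENNReal.ofReal (max (a * w.re + b * w.im) 0 ^ 2) := by
    intro w
    rw [← ENNReal.ofReal_mul (by positivity)]
    apply ENNReal.ofReal_le_ofReal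
    rw [div_le_iff₀ hgs]
    have e2 : s ^ 2 * √(fffDet φ z) * max (a * w.re + b * w.im) 0 ^ 2 * √(fffDet φ z) =
        (s * max (a * w.re + b * w.im) 0) ^ 2 * fffDet φ z := by
      have := Real.mul_self_sqrt hg.le
      linear_combination (s ^ 2 * max (a * w.re + b * w.im) 0 ^ 2) * this
    rw [e2]
    unfold cdet
    split_ifs with hpos
    · obtain ⟨h1, h2⟩ := sffDet_le hi (fun v => hL w v) hpos.1 hpos.2
      rw [hin] at h1 h2
      have h3 : 0 ≤ a * w.re + b * w.im := by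
        by_contra hc
        push Not at hc
        nlinarith
      rw [max_eq_left h3]
      exact h2
    · positivity
  calc ∫⁻ w in ball (0 : ℂ) 1, ENNReal.ofReal (cdet φ (L w) z / √(fffDet φ z))
      ≤ ∫⁻ w in ball (0 : ℂ) 1, ENNReal.ofReal (s ^ 2 * √(fffDet φ z)) *
        ENNReal.ofReal (max (a * w.re + b * w.im) 0 ^ 2) := lintegral_mono hpt
    _ = ENNReal.ofReal (s ^ 2 * √(fffDet φ z)) * ENNReal.ofReal (Real.pi / 8) := by
        rw [lintegral_const_mul' _ _ ENNReal.ofReal_ne_top, half_moment hab]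
    _ ≤ _ := by
        rw [mul_comm]
        gcongr

/-- The total curvature is at most `π / 8` times the Willmore energy. -/
theorem curv_le {φ : ℂ → E4} (h : SliceDisc φ) :
    ∫⁻ z in ball (0 : ℂ) 1, cdens φ z ≤ ENNReal.ofReal (Real.pi / 8) * willmore φ := by
  unfold willmore
  rw [← lintegral_const_mul' _ _ ENNReal.ofReal_ne_top]
  refine setLIntegral_mono' measurableSet_ball fun z hz => ?_
  exact cdens_le (h.imm z (ball_subset_closedBall hz))

theorem hyp_of_willmore {φ : ℂ → E4} (h : SliceDisc φ) (m : ℕ)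
    (hW : willmore φ < ENNReal.ofReal (4 * Real.pi * (m + 1))) :
    ∫⁻ z in ball (0 : ℂ) 1, cdens φ z < ENNReal.ofReal (Real.pi ^ 2 / 2 * (m + 1)) := by
  refine (curv_le h).trans_lt ?_
  have e : ENNReal.ofReal (Real.pi ^ 2 / 2 * (m + 1)) =
      ENNReal.ofReal (Real.pi / 8) * ENNReal.ofReal (4 * Real.pi * (m + 1)) := by
    rw [← ENNReal.ofReal_mul (by positivity)]
    congr 1
    ring
  rw [e]
  have hpi : 0 < Real.pi := Real.pi_pos
  exact ENNReal.mul_lt_mul_right (ENNReal.ofReal_pos.mpr (by positivity)).ne'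
    ENNReal.ofReal_ne_top hW

end Pool.Agent.W7h56.WE
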